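import Pool.Agent.K9h80.LP.Link
import Pool.Agent.Y993.LL.Cond
import Pool.Agent.H985R3.TA.STA

/-!
# The two-point function at all scales
-/

set_option autoImplicit false

namespace Pool.Agent.K9h80.LP

open H974 Finset H342P H984P MeasureTheory Pool.Agent.Y993.LL

/-! ### first exits -/

theorem exitR {x v w : Vtx} {n : ℤ} {G : Set Edg} (hw : Far x n w) (h : Reach G v w) :
    ∃ w', Far x n w' ∧ Reach (G ∩ ↑(bx x n)) v w' := by
  have key : (∃ w', Far x n w' ∧ Reach (G ∩ ↑(bx x n)) v w') ∨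
      (¬ Far x n w ∧ Reach (G ∩ ↑(bx x n)) v w) := by
    clear hw
    induction h with
    | refl =>
      by_cases h : Far x n v
      · exact Or.inl ⟨v, h, Reach.refl _ _⟩
      · exact Or.inr ⟨h, Reach.refl _ _⟩
    | @tail u w _ hs ih =>
      rcases ih with ih | ⟨ih1, ih2⟩
      · exact Or.inl ih
      obtain ⟨e, he, hc⟩ := hs
      have hb : e ∈ bx x n := by
        obtain ⟨p, q, t⟩ := e
        unfold Far at ih1
        unfold bx
        cases t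
        · rw [mem_RE_false]
          simp only [src_mk, tgt_false] at hc
          rcases hc with ⟨h1, h2⟩ | ⟨h1, h2⟩
          · rw [← h1] at ih1; simp only at ih1; omega
          · rw [← h2] at ih1; simp only at ih1; omega
        · rw [mem_RE_true]
          simp only [src_mk, tgt_true] at hc
          rcases hc with ⟨h1, h2⟩ | ⟨h1, h2⟩
          · rw [← h1] at ih1; simp only at ih1; omega
          · rw [← h2] at ih1; simp only at ih1; omega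
      have hr : Reach (G ∩ ↑(bx x n)) v w := ih2.tail ⟨e, ⟨he, hb⟩, hc⟩
      by_cases h : Far x n w
      · exact Or.inl ⟨w, h, hr⟩
      · exact Or.inr ⟨h, hr⟩
  rcases key with h1 | ⟨h1, -⟩
  · exact h1
  · exact absurd hw h1

theorem exitD {x v w : Vtx} {n : ℤ} {G : Set Edg} (hw : Far x n w) (h : DReach G v w) :
    ∃ w', Far x n w' ∧ DReach (G ∩ ↑(bx x n)) v w' := by
  have key : (∃ w', Far x n w' ∧ DReach (G ∩ ↑(bx x n)) v w') ∨
      (¬ Far x n w ∧ DReach (G ∩ ↑(bx x n)) v w) := by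
    clear hw
    induction h with
    | refl =>
      by_cases h : Far x n v
      · exact Or.inl ⟨v, h, DReach.refl _ _⟩
      · exact Or.inr ⟨h, DReach.refl _ _⟩
    | @tail u w _ hs ih =>
      rcases ih with ih | ⟨ih1, ih2⟩
      · exact Or.inl ih
      obtain ⟨e, he, hc⟩ := hs
      have hb : e ∈ bx x n := by
        obtain ⟨p, q, t⟩ := e
        unfold Far at ih1
        unfold bx
        cases t
        · rw [mem_RE_false]
          simp only [dsrc_false, dtgt_mk] at hc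
          rcases hc with ⟨h1, h2⟩ | ⟨h1, h2⟩
          · rw [← h1] at ih1; simp only at ih1; omega
          · rw [← h2] at ih1; simp only at ih1; omega
        · rw [mem_RE_true]
          simp only [dsrc_true, dtgt_mk] at hc
          rcases hc with ⟨h1, h2⟩ | ⟨h1, h2⟩
          · rw [← h1] at ih1; simp only at ih1; omega
          · rw [← h2] at ih1; simp only at ih1; omega
      have hr : DReach (G ∩ ↑(bx x n)) v w := ih2.trans (DAdj.reach ⟨e, ⟨he, hb⟩, hc⟩)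
      by_cases h : Far x n w
      · exact Or.inl ⟨w, h, hr⟩
      · exact Or.inr ⟨h, hr⟩
  rcases key with h1 | ⟨h1, -⟩
  · exact h1
  · exact absurd hw h1

/-! ### the upper bound -/

/-- two arms in the annulus, trivial if there is no annulus -/
def AnE (x : Vtx) (r n : ℕ) (F : Finset Edg) : Prop := r + 1 ≤ n →
  (H12S.Crs x.1 x.2 (r + 1) n (↑(F ∩ bx x n) : Set Edg) ∧
    H12S.DCrs x.1 x.2 (r + 1) n (↑(bx x n \ (F ∩ bx x n)) : Set Edg))

theorem AnE_inter {x : Vtx} {r n : ℕ} (F : Finset Edg) : AnE x r n F ↔ AnE x r n (F ∩ bx x n) := by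
  unfold AnE
  rw [Finset.inter_assoc, Finset.inter_self]

theorem pr_AnE {C : ℝ} (hC : 0 < C) (hA : ∀ r R : ℕ, 1 ≤ r → r ≤ R → ∀ (c1 c2 : ℤ) (S : Finset Edg),
    H12S.PQ (1/2) S (fun F => H12S.Crs c1 c2 r R ↑F ∧ H12S.DCrs c1 c2 r R (↑(S \ F) : Set Edg)) ≤
      C * ((r : ℝ) / R) ^ (1/4 : ℝ)) (x : Vtx) (r : ℕ) {n : ℕ} (hn : 1 ≤ n) {S : Finset Edg}
    (hS : bx x n ⊆ S) :
    Pr (fun _ => (1/2:ℝ)) S (AnE x r n) ≤ (C + 1) * (((r:ℝ) + 1) / n) ^ (1/4:ℝ) := by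
  have hnR : (1:ℝ) ≤ n := by exact_mod_cast hn
  by_cases h : r + 1 ≤ n
  · have e1 : Pr (fun _ => (1/2:ℝ)) S (AnE x r n) = Pr (fun _ => (1/2:ℝ)) (bx x n) (AnE x r n) :=
      Pr_local hS fun F _ => AnE_inter F
    have e2 : Pr (fun _ => (1/2:ℝ)) (bx x n) (AnE x r n) ≤
        H12S.PQ (1/2) (bx x n) (fun F => H12S.Crs x.1 x.2 (r + 1) n ↑F ∧
          H12S.DCrs x.1 x.2 (r + 1) n (↑(bx x n \ F) : Set Edg)) := by
      apply Pr_mono ok2
      intro F hF h1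
      have h2 := h1 h
      rw [Finset.inter_eq_left.mpr hF] at h2
      exact h2
    have h3 := hA (r + 1) n (by omega) h x.1 x.2 (bx x n)
    have e3 : (((r + 1 : ℕ) : ℝ)) = (r:ℝ) + 1 := by push_cast; rfl
    rw [e3] at h3
    rw [e1]
    refine e2.trans (h3.trans ?_)
    have h4 : (0:ℝ) ≤ (((r:ℝ) + 1) / n) ^ (1/4:ℝ) := Real.rpow_nonneg (by positivity) _
    nlinarith
  · refine (Pr_le_one ok2 _ _).trans ?_
    have h2 : (n:ℝ) ≤ (r:ℝ) + 1 := by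
      have : n ≤ r + 1 := by omega
      exact_mod_cast this
    have h3 : (1:ℝ) ≤ (((r:ℝ) + 1) / n) ^ (1/4:ℝ) := by
      apply Real.one_le_rpow _ (by norm_num)
      rw [le_div_iff₀ (by linarith)]
      linarith
    nlinarith

theorem inR_of {x v : Vtx} {r : ℕ} (h : sd x v ≤ r) :
    inR (x.1 - ((r + 1 : ℕ) : ℤ)) (x.1 + ((r + 1 : ℕ) : ℤ)) (x.2 - ((r + 1 : ℕ) : ℤ))
      (x.2 + ((r + 1 : ℕ) : ℤ)) v := by
  rw [sd_le] at h
  unfold inR
  push_cast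
  omega

theorem inR_face {x : Vtx} {σ : St} {r : ℕ} (h : sd x σ.1 ≤ r) :
    inR (x.1 - ((r + 1 : ℕ) : ℤ)) (x.1 + ((r + 1 : ℕ) : ℤ)) (x.2 - ((r + 1 : ℕ) : ℤ))
      (x.2 + ((r + 1 : ℕ) : ℤ)) (face σ) := by
  rw [sd_le] at h
  have h1 := inc_face σ
  unfold Inc at h1
  unfold inR
  push_cast
  omega

theorem AnE_of {ω : sqLattice.edgeSet → Bool} {S : Finset Edg} {x : Vtx} {σ τ : St} {r n : ℕ}
    (hS : bx x n ⊆ S) (hσ : sd x σ.1 ≤ r) (hτ : (n:ℤ) ≤ sd x τ.1)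
    (hτ' : (n:ℤ) ≤ sd x (face τ)) (h : Conn (opn ω) σ τ) : AnE x r n (FF S ω) := by
  intro _
  obtain ⟨h1, h2⟩ := h
  obtain ⟨w, hw, h3⟩ := exitR (far_iff.2 hτ) h1
  obtain ⟨g, hg, h4⟩ := exitD (far_iff.2 hτ') h2
  refine ⟨⟨σ.1, w, inR_of hσ, hw, h3.mono ?_⟩, face σ, g, inR_face hσ, hg, h4.mono ?_⟩
  · rintro e ⟨he1, he2⟩
    rw [Finset.mem_coe, Finset.mem_inter, mem_FF]
    exact ⟨⟨hS he2, he1⟩, he2⟩
  · rintro e ⟨he1, he2⟩
    rw [Finset.mem_coe, Finset.mem_sdiff, Finset.mem_inter, mem_FF]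
    exact ⟨he2, fun h => he1 h.1.2⟩

theorem face_far {x : Vtx} {τ : St} {n : ℤ} (h : n + 1 ≤ sd x τ.1) : n ≤ sd x (face τ) := by
  have h1 := inc_face τ
  unfold Inc at h1
  rw [← far_iff] at h ⊢
  unfold Far at h ⊢
  omega

theorem ball_up : ∃ K : ℝ, 0 < K ∧ ∀ (x y : Vtx) (r s d : ℕ), 1 ≤ d → sd x y = d →
    2 * r ≤ d → 2 * s ≤ d → μ.real {ω | Lk x y r s (opn ω)} ≤
      K * ((((r:ℝ) + 1) * ((s:ℝ) + 1)) / (d:ℝ) ^ 2) ^ (1/4:ℝ) := by
  obtain ⟨C, hC, hA⟩ := H985T.st_A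
  refine ⟨2 + 4 * (C + 1) ^ 2, by positivity, ?_⟩
  intro x y r s d hd hxy hr hs
  have hdR : (1:ℝ) ≤ d := by exact_mod_cast hd
  have hr0 : (0:ℝ) ≤ r := Nat.cast_nonneg r
  have hs0 : (0:ℝ) ≤ s := Nat.cast_nonneg s
  set V : ℝ := ((((r:ℝ) + 1) * ((s:ℝ) + 1)) / (d:ℝ) ^ 2) ^ (1/4:ℝ) with hV
  have hV0 : 0 ≤ V := Real.rpow_nonneg (by positivity) _
  rcases Nat.lt_or_ge d 3 with h3 | h3
  · refine measureReal_le_one.trans ?_
    have h4 : (1:ℝ) / 2 ≤ V := by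
      have h5 : (1:ℝ) / 4 ≤ (((r:ℝ) + 1) * ((s:ℝ) + 1)) / (d:ℝ) ^ 2 := by
        rw [le_div_iff₀ (by positivity)]
        have h6 : (d:ℝ) ≤ 2 := by exact_mod_cast (by omega : d ≤ 2)
        nlinarith
      have h6 : ((1:ℝ) / 4) ^ (1/4:ℝ) ≤ V := Real.rpow_le_rpow (by norm_num) h5 (by norm_num)
      have h7 : ((1:ℝ) / 4) ^ (1:ℝ) ≤ ((1:ℝ) / 4) ^ (1/2:ℝ) :=
        Real.rpow_le_rpow_of_exponent_ge (by norm_num) (by norm_num) (by norm_num)
      have h8 : ((1:ℝ) / 4) ^ (1/2:ℝ) = 1 / 2 := by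
        rw [show (1:ℝ) / 4 = (1/2) ^ (2:ℝ) by norm_num, ← Real.rpow_mul (by norm_num)]
        norm_num
      have h9 : ((1:ℝ) / 4) ^ (1/2:ℝ) ≤ ((1:ℝ) / 4) ^ (1/4:ℝ) :=
        Real.rpow_le_rpow_of_exponent_ge (by norm_num) (by norm_num) (by norm_num)
      linarith
    nlinarith [sq_nonneg (C + 1)]
  · obtain ⟨n, hn⟩ : ∃ n : ℕ, n = (d - 1) / 2 := ⟨_, rfl⟩
    have hn1 : 1 ≤ n := by omega
    have hnd : 2 * n < d := by omega
    have hn4 : d ≤ 4 * n := by omega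
    have hxy' : sd y x = d := by rw [sd_comm]; exact hxy
    have hdis : Disjoint (bx x n) (bx y n) := by
      rw [Finset.disjoint_left]
      intro e h1 h2
      have h3 := (bx_ends h1).1
      have h4 := (bx_ends h2).1
      have h5 := sd_tri' x (src e) y
      rw [sd_comm (src e) y] at h5
      omega
    have h1 : μ.real {ω | Lk x y r s (opn ω)} ≤ Pr (fun _ => (1/2:ℝ)) (bx x n ∪ bx y n)
        (fun F => AnE x r n F ∧ AnE y s n F) := by
      apply law_le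
      rintro ω ⟨σ, τ, hσ, hτ, hl⟩
      have hcon := conn_of_mem hl
      have a1 := sd_tri' x τ.1 y
      have a2 := sd_tri' y σ.1 x
      rw [sd_comm τ.1 y] at a1
      rw [sd_comm σ.1 x] at a2
      have a3 : (n:ℤ) + 1 ≤ sd x τ.1 ∨ (n:ℤ) = sd x τ.1 := by omega
      have a4 : (n:ℤ) + 1 ≤ sd y σ.1 ∨ (n:ℤ) = sd y σ.1 := by omega
      refine ⟨AnE_of Finset.subset_union_left hσ (by omega) (face_far (by omega)) hcon,
        AnE_of Finset.subset_union_right hτ (by omega) (face_far (by omega)) hcon.symm⟩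
    refine h1.trans ?_
    rw [Pr_indep Finset.subset_union_left Finset.subset_union_right hdis
      (A := AnE x r n) (B := AnE y s n) (fun F _ => AnE_inter F) (fun F _ => AnE_inter F)]
    have p1 := pr_AnE hC hA x r hn1 (S := bx x n ∪ bx y n) Finset.subset_union_left
    have p2 := pr_AnE hC hA y s hn1 (S := bx x n ∪ bx y n) Finset.subset_union_right
    have hnR : (1:ℝ) ≤ n := by exact_mod_cast hn1
    have hn4R : (d:ℝ) ≤ 4 * n := by exact_mod_cast hn4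
    have q0 : 0 ≤ Pr (fun _ => (1/2:ℝ)) (bx x n ∪ bx y n) (AnE y s n) := Pr_nonneg ok2 _ _
    have q1 : (0:ℝ) ≤ (((r:ℝ) + 1) / n) ^ (1/4:ℝ) := Real.rpow_nonneg (by positivity) _
    have q2 : (((r:ℝ) + 1) / n) ^ (1/4:ℝ) * (((s:ℝ) + 1) / n) ^ (1/4:ℝ) ≤ 2 * V := by
      rw [← Real.mul_rpow (by positivity : (0:ℝ) ≤ ((r:ℝ) + 1) / n)
        (by positivity : (0:ℝ) ≤ ((s:ℝ) + 1) / n)]
      have e1 : ((r:ℝ) + 1) / n * (((s:ℝ) + 1) / n) ≤
          16 * ((((r:ℝ) + 1) * ((s:ℝ) + 1)) / (d:ℝ) ^ 2) := by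
        rw [div_mul_div_comm, ← mul_div_assoc, div_le_div_iff₀ (by positivity) (by positivity)]
        have e2 : (d:ℝ) ^ 2 ≤ 16 * ((n:ℝ) * n) := by nlinarith
        have e3 : (0:ℝ) ≤ ((r:ℝ) + 1) * ((s:ℝ) + 1) := by positivity
        calc ((r:ℝ) + 1) * ((s:ℝ) + 1) * (d:ℝ) ^ 2 ≤
            ((r:ℝ) + 1) * ((s:ℝ) + 1) * (16 * ((n:ℝ) * n)) := mul_le_mul_of_nonneg_left e2 e3
          _ = _ := by ring
      have e4 := Real.rpow_le_rpow (by positivity) e1 (by norm_num : (0:ℝ) ≤ 1/4)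
      rw [Real.mul_rpow (by norm_num : (0:ℝ) ≤ 16) (by positivity :
        (0:ℝ) ≤ ((((r:ℝ) + 1) * ((s:ℝ) + 1)) / (d:ℝ) ^ 2))] at e4
      have e5 : (16:ℝ) ^ (1/4:ℝ) = 2 := by
        rw [show (16:ℝ) = 2 ^ (4:ℝ) by norm_num, ← Real.rpow_mul (by norm_num)]
        norm_num
      rw [e5] at e4
      exact e4
    calc _ ≤ ((C + 1) * (((r:ℝ) + 1) / n) ^ (1/4:ℝ)) * ((C + 1) * (((s:ℝ) + 1) / n) ^ (1/4:ℝ)) :=
          mul_le_mul p1 p2 q0 (by positivity)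
      _ = (C + 1) ^ 2 * ((((r:ℝ) + 1) / n) ^ (1/4:ℝ) * (((s:ℝ) + 1) / n) ^ (1/4:ℝ)) := by ring
      _ ≤ (C + 1) ^ 2 * (2 * V) := mul_le_mul_of_nonneg_left q2 (by positivity)
      _ ≤ _ := by nlinarith [sq_nonneg (C + 1), mul_nonneg (sq_nonneg (C + 1)) hV0]

/-! ### the lower bound -/

theorem Lk_mono {x y : Vtx} {r s r' s' : ℕ} (hr : r ≤ r') (hs : s ≤ s') {F : Set Edg}
    (h : Lk x y r s F) : Lk x y r' s' F := by
  obtain ⟨σ, τ, h1, h2, h3⟩ := h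
  exact ⟨σ, τ, by omega, by omega, h3⟩

theorem ball_low {c C : ℝ} (hc : 0 < c) (hL : LowA c (1/4)) (hU : TwoUp C (1/4)) :
    ∃ k : ℝ, 0 < k ∧ ∀ (x y : Vtx) (r s d : ℕ), 1 ≤ d → sd x y = d →
    2 * r ≤ d → 2 * s ≤ d → k * ((((r:ℝ) + 1) * ((s:ℝ) + 1)) / (d:ℝ) ^ 2) ^ (1/4:ℝ) ≤
      μ.real {ω | Lk x y r s (opn ω)} := by
  obtain ⟨k1, hk1, h1⟩ := low_far hc hL
  obtain ⟨k2, hk2, h2⟩ := low_near hU 1200
  have hC0 : (0:ℝ) ≤ |C| := abs_nonneg C
  set A : ℝ := (2 * |C| + 1) ^ 2 with hA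
  have hA0 : 0 < A := by positivity
  refine ⟨min (k1 / (A * 4)) (k2 / 2), by positivity, ?_⟩
  intro x y r s d hd hxy hr hs
  have hdR : (1:ℝ) ≤ d := by exact_mod_cast hd
  have hr0 : (0:ℝ) ≤ r := Nat.cast_nonneg r
  have hs0 : (0:ℝ) ≤ s := Nat.cast_nonneg s
  have hrR : 2 * (r:ℝ) ≤ d := by exact_mod_cast hr
  have hsR : 2 * (s:ℝ) ≤ d := by exact_mod_cast hs
  set V : ℝ := ((((r:ℝ) + 1) * ((s:ℝ) + 1)) / (d:ℝ) ^ 2) ^ (1/4:ℝ) with hV
  have hV0 : 0 ≤ V := Real.rpow_nonneg (by positivity) _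
  rcases Nat.lt_or_ge d 1200 with h3 | h3
  · have h4 := h2 (x, Q4.ne) (y, Q4.ne) (by simp only; rw [hxy]; exact_mod_cast h3.le)
    have h5 : μ.real {ω | ((y, Q4.ne) : St) ∈ loop (opn ω) (x, Q4.ne)} ≤
        μ.real {ω | Lk x y r s (opn ω)} := by
      refine measureReal_mono (fun ω hω => ?_)
      exact ⟨(x, Q4.ne), (y, Q4.ne), by simp only; rw [sd_le]; omega,
        by simp only; rw [sd_le]; omega, hω⟩
    refine le_trans ?_ (h4.trans h5)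
    have h6 : V ≤ 2 := by
      have h7 : (((r:ℝ) + 1) * ((s:ℝ) + 1)) / (d:ℝ) ^ 2 ≤ 16 := by
        rw [div_le_iff₀ (by positivity)]
        nlinarith
      have h8 := Real.rpow_le_rpow (by positivity) h7 (by norm_num : (0:ℝ) ≤ 1/4)
      have e5 : (16:ℝ) ^ (1/4:ℝ) = 2 := by
        rw [show (16:ℝ) = 2 ^ (4:ℝ) by norm_num, ← Real.rpow_mul (by norm_num)]
        norm_num
      rw [e5] at h8
      exact h8
    calc min (k1 / (A * 4)) (k2 / 2) * V ≤ (k2 / 2) * 2 :=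
          mul_le_mul (min_le_right _ _) h6 hV0 (by positivity)
      _ = k2 := by ring
  · obtain ⟨S, hS⟩ := h1 x y (by rw [hxy]; exact_mod_cast h3)
    have hdd : ((sd x y : ℤ) : ℝ) = d := by rw [hxy]; push_cast; rfl
    rw [hdd] at hS
    have h4 := split_link hU (x := x) (y := y) (r := r / 2) (s := s / 2) (by
      rw [hxy]; omega) S
    rw [← hA] at h4
    have h5 : μ.real {ω | Lk x y (r / 2) (s / 2) (opn ω)} ≤ μ.real {ω | Lk x y r s (opn ω)} :=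
      measureReal_mono fun ω hω => Lk_mono (Nat.div_le_self _ _) (Nat.div_le_self _ _) hω
    have hm0 : (0:ℝ) ≤ μ.real {ω | Lk x y (r / 2) (s / 2) (opn ω)} := measureReal_nonneg
    -- the factors
    have half : ∀ m : ℕ, (((m / 2 : ℕ) : ℝ) + 1) ^ (-(1/4:ℝ)) ≤ 2 * (((m:ℝ) + 1) ^ (-(1/4:ℝ))) := by
      intro m
      have e1 : ((m:ℝ) + 1) / 2 ≤ ((m / 2 : ℕ) : ℝ) + 1 := by
        have : m + 1 ≤ 2 * (m / 2 + 1) := by omega
        have : (m:ℝ) + 1 ≤ 2 * (((m / 2 : ℕ) : ℝ) + 1) := by exact_mod_cast this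
        linarith
      have e2 : (((m / 2 : ℕ) : ℝ) + 1) ^ (-(1/4:ℝ)) ≤ (((m:ℝ) + 1) / 2) ^ (-(1/4:ℝ)) :=
        rpow_neg_le (by positivity) e1 (by norm_num)
      have e3 : (((m:ℝ) + 1) / 2) ^ (-(1/4:ℝ)) = ((m:ℝ) + 1) ^ (-(1/4:ℝ)) * (2:ℝ) ^ (1/4:ℝ) := by
        rw [Real.div_rpow (by positivity) (by norm_num), Real.rpow_neg (by norm_num : (0:ℝ) ≤ 2)]
        rw [div_inv_eq_mul]
      have e4 : (2:ℝ) ^ (1/4:ℝ) ≤ 2 := by
        have := Real.rpow_le_rpow_of_exponent_le (by norm_num : (1:ℝ) ≤ 2)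
          (by norm_num : (1/4:ℝ) ≤ 1)
        rwa [Real.rpow_one] at this
      have e5 : (0:ℝ) ≤ ((m:ℝ) + 1) ^ (-(1/4:ℝ)) := Real.rpow_nonneg (by positivity) _
      rw [e3] at e2
      nlinarith
    set a : ℝ := ((r:ℝ) + 1) ^ (-(1/4:ℝ)) with ha
    set b : ℝ := ((s:ℝ) + 1) ^ (-(1/4:ℝ)) with hb
    have ha0 : 0 < a := Real.rpow_pos_of_pos (by positivity) _
    have hb0 : 0 < b := Real.rpow_pos_of_pos (by positivity) _
    have h6 : k1 * (d:ℝ) ^ (-(1/2:ℝ)) ≤ A * 4 * (a * b) * μ.real {ω | Lk x y r s (opn ω)} := by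
      refine hS.trans (h4.trans ?_)
      have e6 := half r
      have e7 := half s
      have e8 : (0:ℝ) ≤ (((s / 2 : ℕ) : ℝ) + 1) ^ (-(1/4:ℝ)) := Real.rpow_nonneg (by positivity) _
      have e9 : (((r / 2 : ℕ) : ℝ) + 1) ^ (-(1/4:ℝ)) * (((s / 2 : ℕ) : ℝ) + 1) ^ (-(1/4:ℝ)) ≤
          (2 * a) * (2 * b) := mul_le_mul e6 e7 e8 (by positivity)
      calc _ ≤ A * ((2 * a) * (2 * b)) * μ.real {ω | Lk x y r s (opn ω)} := by
            apply mul_le_mul _ h5 hm0 (by positivity)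
            exact mul_le_mul_of_nonneg_left e9 hA0.le
        _ = _ := by ring
    have h7 : V * (a * b) = (d:ℝ) ^ (-(1/2:ℝ)) := by
      rw [hV, ha, hb, ← Real.mul_rpow (by positivity) (by positivity),
        Real.div_rpow (by positivity) (by positivity),
        Real.rpow_neg (by positivity : (0:ℝ) ≤ ((r:ℝ) + 1) * ((s:ℝ) + 1))]
      have e1 : ((d:ℝ) ^ 2) ^ (1/4:ℝ) = (d:ℝ) ^ (1/2:ℝ) := by
        rw [← Real.rpow_natCast, ← Real.rpow_mul (by positivity)]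
        norm_num
      have e2 : (((r:ℝ) + 1) * ((s:ℝ) + 1)) ^ (1/4:ℝ) ≠ 0 :=
        (Real.rpow_pos_of_pos (by positivity) _).ne'
      rw [e1, Real.rpow_neg (by positivity)]
      field_simp
    have h8 : k1 / (A * 4) * V * (a * b) ≤ μ.real {ω | Lk x y r s (opn ω)} * (a * b) := by
      rw [mul_assoc, h7]
      rw [div_mul_eq_mul_div, div_le_iff₀ (by positivity)]
      linarith
    have h9 := le_of_mul_le_mul_right h8 (mul_pos ha0 hb0)
    exact (mul_le_mul_of_nonneg_right (min_le_left _ _) hV0).trans h9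

end Pool.Agent.K9h80.LP
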