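import Pool.Agent.Y993.LL.Count

/-!
# Moving a state of a loop at a constant price

Changing the state of one edge either keeps the two strands through the edge in their loops or
merges two loops; hence the probability that two given states are on the same loop changes by a
factor of at most `2` if one of the states is replaced by a neighbour.
-/

set_option autoImplicit false

namespace Pool.Agent.K9h80.LP

open H974 Finset H342P H984P MeasureTheory Pool.Agent.Y993.LL

/-- The other state at which the edge `ae σ` is examined. -/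
def op (σ : St) : St := match σ.2 with
  | .ne => ((σ.1.1 + 1, σ.1.2), .sw)
  | .nw => ((σ.1.1, σ.1.2 + 1), .se)
  | .sw => ((σ.1.1 - 1, σ.1.2), .ne)
  | .se => ((σ.1.1, σ.1.2 - 1), .nw)

theorem ae_op (σ : St) : H984P.ae (op σ) = H984P.ae σ := by
  obtain ⟨⟨x, y⟩, q⟩ := σ
  cases q <;> simp [op, H984P.ae]

theorem rt_op (σ : St) : rt (op σ) = mv σ := by
  obtain ⟨⟨x, y⟩, q⟩ := σ
  cases q <;> simp [op, rt, mv]

theorem mv_op (σ : St) : mv (op σ) = rt σ := by
  obtain ⟨⟨x, y⟩, q⟩ := σ
  cases q <;> simp [op, rt, mv]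

theorem ae_eq {σ ρ : St} (h : H984P.ae ρ = H984P.ae σ) : ρ = σ ∨ ρ = op σ := by
  obtain ⟨⟨x, y⟩, q⟩ := σ
  obtain ⟨⟨x', y'⟩, q'⟩ := ρ
  cases q <;> cases q' <;>
    simp only [H984P.ae, op, Prod.mk.injEq, and_true, and_false, reduceCtorEq, or_false,
      false_or] at h ⊢ <;> omega

/-- `F` and `G` differ exactly at the edge `e`. -/
def Diff1 (e : Edg) (F G : Set Edg) : Prop :=
  (∀ e', e' ≠ e → (e' ∈ F ↔ e' ∈ G)) ∧ (e ∈ F ↔ e ∉ G)

theorem nxt_sw1 {F G : Set Edg} {σ : St} (h : Diff1 (H984P.ae σ) F G) :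
    nxt G σ = nxt F (op σ) := by
  by_cases h1 : H984P.ae σ ∈ G
  · have h2 : H984P.ae (op σ) ∉ F := by rw [ae_op]; exact fun h3 => (h.2.1 h3) h1
    rw [nxt_open h1, nxt_closed h2, rt_op]
  · have h2 : H984P.ae (op σ) ∈ F := by rw [ae_op]; exact h.2.2 h1
    rw [nxt_closed h1, nxt_open h2, mv_op]

theorem nxt_sw3 {F G : Set Edg} {σ ρ : St} (h : Diff1 (H984P.ae σ) F G) (h1 : ρ ≠ σ)
    (h2 : ρ ≠ op σ) : nxt G ρ = nxt F ρ := by
  have h3 : H984P.ae ρ ≠ H984P.ae σ := fun h3 => (ae_eq h3).elim h1 h2
  have h4 := h.1 _ h3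
  by_cases h5 : H984P.ae ρ ∈ F
  · rw [nxt_open h5, nxt_open (h4.1 h5)]
  · rw [nxt_closed h5, nxt_closed (fun h6 => h5 (h4.2 h6))]

/-- Changing one edge. -/
theorem swap_loop {F G : Set Edg} {σ τ : St} (h : Diff1 (H984P.ae σ) F G) (hF : Closed F σ)
    (hG : ∀ ρ, Closed G ρ) (hτ : τ ∈ loop F σ) :
    τ ∈ loop F (nxt G σ) ∨ τ ∈ loop G (nxt G σ) := by
  classical
  by_cases hop : op σ ∈ loop F σ
  · left
    have h1 : nxt G σ ∈ loop F σ := by
      rw [nxt_sw1 h]
      exact (loop_inv hF _).1 hop
    rw [(loop_eq hF h1).1]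
    exact hτ
  · right
    obtain ⟨p, hp⟩ : ∃ p, p = Function.minimalPeriod (nxt F) σ := ⟨_, rfl⟩
    have hper : σ ∈ Function.periodicPts (nxt F) := by
      obtain ⟨p, hp, hp2⟩ := hF
      exact ⟨p, hp, hp2⟩
    have hp0 : 0 < p := by
      rw [hp]; exact Function.minimalPeriod_pos_of_mem_periodicPts hper
    have hpp : orb F σ p = σ := by
      rw [hp]; exact Function.isPeriodicPt_minimalPeriod _ _
    have hne : ∀ s, s ≠ 0 → s < p → orb F σ s ≠ σ := by
      intro s hs1 hs2 hs3
      rw [hp] at hs2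
      exact Function.not_isPeriodicPt_of_pos_of_lt_minimalPeriod hs1 hs2 hs3
    have key : ∀ t, t < p → orb G (nxt F σ) t = orb F σ (t + 1) := by
      intro t
      induction t with
      | zero => intro _; rw [orb_zero, orb_succ, orb_zero]
      | succ t ih =>
        intro ht
        rw [orb_succ, ih (by omega)]
        rw [nxt_sw3 h (hne _ (by omega) ht) (fun h5 => hop ⟨t + 1, h5⟩), ← orb_succ]
    have hall : ∀ ρ ∈ loop F σ, ρ ∈ loop G (nxt F σ) := by
      rintro ρ ⟨u, rfl⟩
      have h1 : orb F σ (u % p) = orb F σ u := by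
        rw [hp]; exact Function.iterate_mod_minimalPeriod_eq
      rcases Nat.eq_zero_or_pos (u % p) with h2 | h2
      · refine ⟨p - 1, ?_⟩
        rw [key _ (by omega), Nat.sub_add_cancel hp0, hpp, ← h1, h2, orb_zero]
      · refine ⟨u % p - 1, ?_⟩
        have h3 := Nat.mod_lt u hp0
        rw [key _ (by omega), Nat.sub_add_cancel h2, h1]
    have h1 : nxt G σ ∈ loop G (nxt F σ) :=
      (loop_inv (hG _) _).1 (hall σ (self_mem_loop _ _))
    rw [(loop_eq (hG _) h1).1]
    exact hall τ hτ

/-! ### The measure -/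

/-- change of the state of one edge -/
def flp (g : sqLattice.edgeSet) (ω : sqLattice.edgeSet → Bool) : sqLattice.edgeSet → Bool :=
  open Classical in fun i => (if i = g then not else id) (ω i)

theorem flp_self (g : sqLattice.edgeSet) (ω : sqLattice.edgeSet → Bool) : flp g ω g = !ω g := by
  unfold flp; simp

theorem flp_ne {g i : sqLattice.edgeSet} (h : i ≠ g) (ω : sqLattice.edgeSet → Bool) :
    flp g ω i = ω i := by
  unfold flp; simp [h]

theorem flp_flp (g : sqLattice.edgeSet) (ω : sqLattice.edgeSet → Bool) :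
    flp g (flp g ω) = ω := by
  funext i
  by_cases h : i = g
  · subst h; rw [flp_self, flp_self, Bool.not_not]
  · rw [flp_ne h, flp_ne h]

theorem flp_meas (g : sqLattice.edgeSet) : Measurable (flp g) := by
  rw [measurable_pi_iff]
  intro i
  by_cases h : i = g
  · subst h
    have : (fun ω => flp i ω i) = fun ω : sqLattice.edgeSet → Bool => !ω i := by
      funext ω; exact flp_self i ω
    rw [this]
    exact (measurable_of_countable not).comp (measurable_pi_apply i)
  · have : (fun ω => flp g ω i) = fun ω : sqLattice.edgeSet → Bool => ω i := by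
      funext ω; exact flp_ne h ω
    rw [this]
    exact measurable_pi_apply i

/-- the change of one edge as a measurable equivalence -/
def flpE (g : sqLattice.edgeSet) : (sqLattice.edgeSet → Bool) ≃ᵐ (sqLattice.edgeSet → Bool) where
  toFun := flp g
  invFun := flp g
  left_inv := flp_flp g
  right_inv := flp_flp g
  measurable_toFun := flp_meas g
  measurable_invFun := flp_meas g

theorem map_not : (ProbabilityTheory.bernoulliMeasure true false hlf).map not =
    ProbabilityTheory.bernoulliMeasure true false hlf := by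
  have e : (unitInterval.symm hlf) = hlf := by
    apply Subtype.ext
    show (1:ℝ) - 1/2 = 1/2
    norm_num
  rw [ProbabilityTheory.map_bernoulliMeasure, ProbabilityTheory.bernoulliMeasure_def,
    ProbabilityTheory.bernoulliMeasure_def, e, add_comm]
  rfl

theorem flp_mp (g : sqLattice.edgeSet) : MeasurePreserving (flpE g) (bondLaw hlf) (bondLaw hlf) := by
  classical
  refine ⟨flp_meas g, ?_⟩
  show (bondLaw hlf).map (flp g) = bondLaw hlf
  unfold bondLaw
  have h := Measure.infinitePi_map_pi
    (fun _ : sqLattice.edgeSet => ProbabilityTheory.bernoulliMeasure true false hlf)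
    (f := fun i => if i = g then not else id) (fun i => measurable_of_countable _)
  have e : (fun (x : sqLattice.edgeSet → Bool) i => (if i = g then not else id) (x i)) = flp g := by
    funext x i
    unfold flp
    congr
  rw [e] at h
  rw [h]
  congr 1
  funext i
  by_cases hi : i = g
  · rw [if_pos hi]; exact map_not
  · rw [if_neg hi, Measure.map_id]

theorem flp_diff (e : Edg) (ω : sqLattice.edgeSet → Bool) :
    Diff1 e (opn ω) (opn (flp (toE e) ω)) := by
  constructor
  · intro e' he'
    have h1 : toE e' ≠ toE e := fun h => he' (toE_inj h)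
    show ω (toE e') = true ↔ flp (toE e) ω (toE e') = true
    rw [flp_ne h1]
  · show ω (toE e) = true ↔ ¬ flp (toE e) ω (toE e) = true
    rw [flp_self]
    cases ω (toE e) <;> simp

/-- One move. -/
theorem move1 {C t : ℝ} (ht : 0 < t) (hU : TwoUp C t) {σ σ' : St}
    (h : σ' = rt σ ∨ σ' = mv σ) (τ : St) :
    μ.real {ω | τ ∈ loop (opn ω) σ} ≤ 2 * μ.real {ω | τ ∈ loop (opn ω) σ'} := by
  have hc := closed_all_ae ht hU
  have hmp := flp_mp (toE (H984P.ae σ))
  have hc2 : ∀ᵐ ω ∂(bondLaw hlf), ∀ ρ : St, Closed (opn (flp (toE (H984P.ae σ)) ω)) ρ :=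
    hmp.quasiMeasurePreserving.ae hc
  set A : Set (sqLattice.edgeSet → Bool) := {ω | τ ∈ loop (opn ω) σ'} with hA
  have hsub : ∀ᵐ ω ∂(bondLaw hlf), τ ∈ loop (opn ω) σ →
      ω ∈ A ∪ (flpE (toE (H984P.ae σ))) ⁻¹' A := by
    filter_upwards [hc, hc2] with ω h1 h2 h3
    have hd := flp_diff (H984P.ae σ) ω
    have h4 : nxt (opn ω) σ = σ' ∨ nxt (opn (flp (toE (H984P.ae σ)) ω)) σ = σ' := by
      by_cases h5 : H984P.ae σ ∈ opn ω
      · have h6 := hd.2.1 h5
        rcases h with rfl | rfl
        · right; exact nxt_closed h6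
        · left; exact nxt_open h5
      · have h6 : H984P.ae σ ∈ opn (flp (toE (H984P.ae σ)) ω) := by
          by_contra h7; exact h5 (hd.2.2 h7)
        rcases h with rfl | rfl
        · left; exact nxt_closed h5
        · right; exact nxt_open h6
    rcases h4 with h4 | h4
    · left
      show τ ∈ loop (opn ω) σ'
      have h5 : σ' ∈ loop (opn ω) σ := by
        rw [← h4]; exact (loop_inv (h1 σ) _).1 (self_mem_loop _ _)
      rw [(loop_eq (h1 σ) h5).1]
      exact h3
    · rcases swap_loop hd (h1 σ) h2 h3 with h5 | h5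
      · left
        rw [h4] at h5
        exact h5
      · right
        rw [h4] at h5
        exact h5
  have h1 : μ.real {ω | τ ∈ loop (opn ω) σ} ≤
      μ.real (A ∪ (flpE (toE (H984P.ae σ))) ⁻¹' A) := by
    unfold Measure.real
    exact ENNReal.toReal_mono (measure_ne_top _ _) (measure_mono_ae hsub)
  have h2 : μ.real ((flpE (toE (H984P.ae σ))) ⁻¹' A) = μ.real A := by
    unfold Measure.real
    rw [hmp.measure_preimage_equiv]
  have h3 := measureReal_union_le (μ := μ) A ((flpE (toE (H984P.ae σ))) ⁻¹' A)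
  rw [h2] at h3
  linarith

end Pool.Agent.K9h80.LP
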