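import Pool.Agent.Y993.LL.Strip

/-!
# Corridors

Three open crossings and three dual crossings of long rectangles join the separated arms of two
vertices, one of which is above the other one.
-/

set_option autoImplicit false

namespace Pool.Agent.K9h80.LP

open H974 Finset H342P H984P MeasureTheory Pool.Agent.Y993.LL

/-- the open crossings -/
def CO (a : ℕ) (X Y R : ℤ) (F : Finset Edg) : Prop :=
  LRc (-(13 * a : ℤ)) (R + 20 * a) (-(8 * a : ℤ)) (-(4 * a : ℤ)) F ∧
  (TBc (R + 16 * a) (R + 20 * a) (-(8 * a : ℤ)) (Y - 4 * a) F ∧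
    LRc (X - 13 * a) (R + 20 * a) (Y - 8 * a) (Y - 4 * a) F)

/-- their edges -/
noncomputable def EO (a : ℕ) (X Y R : ℤ) : Finset Edg :=
  LRE (-(13 * a : ℤ)) (R + 20 * a) (-(8 * a : ℤ)) (-(4 * a : ℤ)) ∪
  (TBE (R + 16 * a) (R + 20 * a) (-(8 * a : ℤ)) (Y - 4 * a) ∪
    LRE (X - 13 * a) (R + 20 * a) (Y - 8 * a) (Y - 4 * a))

/-- the dual crossings, in the lattice of faces -/
def CD (a : ℕ) (X Y L : ℤ) (H : Finset Edg) : Prop :=
  LRc (L - 20 * a) (13 * a : ℤ) (4 * a : ℤ) (8 * a : ℤ) H ∧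
  (TBc (L - 20 * a) (L - 16 * a) (4 * a : ℤ) (Y + 8 * a) H ∧
    LRc (L - 20 * a) (X + 13 * a) (Y + 4 * a) (Y + 8 * a) H)

/-- their edges -/
noncomputable def ED (a : ℕ) (X Y L : ℤ) : Finset Edg :=
  LRE (L - 20 * a) (13 * a : ℤ) (4 * a : ℤ) (8 * a : ℤ) ∪
  (TBE (L - 20 * a) (L - 16 * a) (4 * a : ℤ) (Y + 8 * a) ∪
    LRE (L - 20 * a) (X + 13 * a) (Y + 4 * a) (Y + 8 * a))

/-- the box which contains everything -/
noncomputable def SS (a : ℕ) (Y L R : ℤ) : Finset Edg :=
  RE (L - 25 * a) (R + 25 * a) (-(25 * a : ℤ)) (Y + 25 * a)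

/-- geometric conditions -/
structure Pos (a : ℕ) (X Y L R : ℤ) : Prop where
  ha : 1 ≤ a
  hY : 30 * (a : ℤ) ≤ Y
  hR : 0 ≤ R
  hXR : X ≤ R
  hL : L ≤ 0
  hLX : L ≤ X

variable {a : ℕ} {X Y L R : ℤ}

theorem conn_open (h : Pos a X Y L R) {F : Finset Edg} (h0 : RA (0, 0) a (↑F))
    (hv : RA (X, Y) a (↑F)) (hC : CO a X Y R F) :
    Reach ((↑F : Set Edg) ∩ ↑(SS a Y L R)) (0, 0) (X, Y) := by
  obtain ⟨ha, hY, hR, hXR, hL, hLX⟩ := h
  have ha' : (1 : ℤ) ≤ a := by exact_mod_cast ha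
  obtain ⟨⟨y1, y1', hy1, hy1', h1⟩, ⟨x2, x2', hx2, hx2', h2⟩, ⟨y3, y3', hy3, hy3', h3⟩⟩ := hC
  obtain ⟨⟨w, hw, hRw⟩, -⟩ := h0
  obtain ⟨⟨w', hw', hRw'⟩, -⟩ := hv
  simp only at hw hw'
  have sP0 : PR (0, 0) a ⊆ SS a Y L R := by
    rintro ⟨x, y, _ | _⟩ h
    · simp only [PR, SS, mem_RE_false] at h ⊢; omega
    · simp only [PR, SS, mem_RE_true] at h ⊢; omega
  have sPv : PR (X, Y) a ⊆ SS a Y L R := by
    rintro ⟨x, y, _ | _⟩ h
    · simp only [PR, SS, mem_RE_false] at h ⊢; omega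
    · simp only [PR, SS, mem_RE_true] at h ⊢; omega
  have s1 : LRE (-(13 * a : ℤ)) (R + 20 * a) (-(8 * a : ℤ)) (-(4 * a : ℤ)) ⊆ SS a Y L R := by
    rintro ⟨x, y, _ | _⟩ h
    · simp only [SS, mem_RE_false, mem_LRE_false] at h ⊢; omega
    · simp only [SS, mem_RE_true, mem_LRE_true] at h ⊢; omega
  have s2 : TBE (R + 16 * a) (R + 20 * a) (-(8 * a : ℤ)) (Y - 4 * a) ⊆ SS a Y L R := by
    rintro ⟨x, y, _ | _⟩ h
    · simp only [SS, mem_RE_false, mem_TBE_false] at h ⊢; omega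
    · simp only [SS, mem_RE_true, mem_TBE_true] at h ⊢; omega
  have s3 : LRE (X - 13 * a) (R + 20 * a) (Y - 8 * a) (Y - 4 * a) ⊆ SS a Y L R := by
    rintro ⟨x, y, _ | _⟩ h
    · simp only [SS, mem_RE_false, mem_LRE_false] at h ⊢; omega
    · simp only [SS, mem_RE_true, mem_LRE_true] at h ⊢; omega
  have e1 : Reach ((↑F : Set Edg) ∩ ↑(SS a Y L R)) w (-(13 * a : ℤ), y1) := by
    refine meet_gen (p := -(12 * a : ℤ)) (q := 12 * a) (c := -(8 * a : ℤ)) (d := -(4 * a : ℤ))
      (by omega) (by omega) (V := PR (0, 0) a) (Hh := _) sP0 s1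
      ?_ ?_ ?_ ?_ ?_ hRw.symm (by omega) (by simp only; omega) h1
      (by simp only; omega) (by simp only; omega)
    · rintro ⟨x, y, _ | _⟩ h
      · simp only [SS, mem_RE_false] at h ⊢; omega
      · simp only [SS, mem_RE_true] at h ⊢; omega
    · intro x y h; simp only [PR, mem_RE_false] at h; omega
    · intro x y h; simp only [PR, mem_RE_true] at h; omega
    · intro x y h; simp only [mem_LRE_true] at h; omega
    · intro x y h; simp only [mem_LRE_false] at h; omega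
  have e2 : Reach ((↑F : Set Edg) ∩ ↑(SS a Y L R)) (x2, -(8 * a : ℤ)) (-(13 * a : ℤ), y1) := by
    refine meet_gen (p := R + 16 * a) (q := R + 20 * a) (c := -(8 * a : ℤ)) (d := -(4 * a : ℤ))
      (by omega) (by omega) (V := _) (Hh := _) s2 s1
      ?_ ?_ ?_ ?_ ?_ h2 (by simp only; omega) (by simp only; omega) h1
      (by simp only; omega) (by simp only; omega)
    · rintro ⟨x, y, _ | _⟩ h
      · simp only [SS, mem_RE_false] at h ⊢; omega
      · simp only [SS, mem_RE_true] at h ⊢; omega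
    · intro x y h; simp only [mem_TBE_false] at h; omega
    · intro x y h; simp only [mem_TBE_true] at h; omega
    · intro x y h; simp only [mem_LRE_true] at h; omega
    · intro x y h; simp only [mem_LRE_false] at h; omega
  have e3 : Reach ((↑F : Set Edg) ∩ ↑(SS a Y L R)) (x2, -(8 * a : ℤ)) (X - 13 * a, y3) := by
    refine meet_gen (p := R + 16 * a) (q := R + 20 * a) (c := Y - 8 * a) (d := Y - 4 * a)
      (by omega) (by omega) (V := _) (Hh := _) s2 s3
      ?_ ?_ ?_ ?_ ?_ h2 (by simp only; omega) (by simp only; omega) h3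
      (by simp only; omega) (by simp only; omega)
    · rintro ⟨x, y, _ | _⟩ h
      · simp only [SS, mem_RE_false] at h ⊢; omega
      · simp only [SS, mem_RE_true] at h ⊢; omega
    · intro x y h; simp only [mem_TBE_false] at h; omega
    · intro x y h; simp only [mem_TBE_true] at h; omega
    · intro x y h; simp only [mem_LRE_true] at h; omega
    · intro x y h; simp only [mem_LRE_false] at h; omega
  have e4 : Reach ((↑F : Set Edg) ∩ ↑(SS a Y L R)) w' (X - 13 * a, y3) := by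
    refine meet_gen (p := X - 12 * a) (q := X + 12 * a) (c := Y - 8 * a) (d := Y - 4 * a)
      (by omega) (by omega) (V := PR (X, Y) a) (Hh := _) sPv s3
      ?_ ?_ ?_ ?_ ?_ hRw'.symm (by omega) (by simp only; omega) h3
      (by simp only; omega) (by simp only; omega)
    · rintro ⟨x, y, _ | _⟩ h
      · simp only [SS, mem_RE_false] at h ⊢; omega
      · simp only [SS, mem_RE_true] at h ⊢; omega
    · intro x y h; simp only [PR, mem_RE_false] at h; omega
    · intro x y h; simp only [PR, mem_RE_true] at h; omega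
    · intro x y h; simp only [mem_LRE_true] at h; omega
    · intro x y h; simp only [mem_LRE_false] at h; omega
  have f0 : Reach ((↑F : Set Edg) ∩ ↑(SS a Y L R)) (0, 0) w := hRw.mono (by
    rintro e ⟨h0, h⟩
    exact ⟨h0, sP0 h⟩)
  have fv : Reach ((↑F : Set Edg) ∩ ↑(SS a Y L R)) (X, Y) w' := hRw'.mono (by
    rintro e ⟨h0, h⟩
    exact ⟨h0, sPv h⟩)
  exact ((((f0.trans e1).trans e2.symm).trans e3).trans e4.symm).trans fv.symm

theorem conn_dual (h : Pos a X Y L R) {F S : Finset Edg}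
    (h0 : RA (0, 0) a (↑F)) (hv : RA (X, Y) a (↑F)) (hC : CD a X Y L (dmp (S \ F))) :
    DReach (↑(SS a Y L R) \ (↑F : Set Edg)) (0, 0) (X, Y) := by
  obtain ⟨ha, hY, hR, hXR, hL, hLX⟩ := h
  have ha' : (1 : ℤ) ≤ a := by exact_mod_cast ha
  obtain ⟨⟨y1, y1', hy1, hy1', h1⟩, ⟨x2, x2', hx2, hx2', h2⟩, ⟨y3, y3', hy3, hy3', h3⟩⟩ := hC
  obtain ⟨-, g, hg, hDg⟩ := h0
  obtain ⟨-, g', hg', hDg'⟩ := hv
  simp only at hg hg'
  set H : Set Edg := dl '' (↑F : Set Edg)ᶜ with hH
  have conv : ∀ V : Finset Edg, dl '' (dE V \ ↑F) ⊆ H ∩ ↑V := by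
    rintro V _ ⟨e, ⟨he1, he2⟩, rfl⟩
    exact ⟨⟨e, he2, rfl⟩, he1⟩
  have conv2 : ∀ V : Finset Edg, (↑(dmp (S \ F)) : Set Edg) ∩ ↑V ⊆ H ∩ ↑V := by
    rintro V e ⟨he1, he2⟩
    rw [coe_dmp] at he1
    obtain ⟨e', he', rfl⟩ := he1
    rw [Finset.coe_sdiff] at he'
    exact ⟨⟨e', he'.2, rfl⟩, he2⟩
  set T : Finset Edg := RE (L - 22 * a) (R + 22 * a) (-(22 * a : ℤ)) (Y + 22 * a) with hT
  have back : ∀ u w : Vtx, Reach (H ∩ ↑T) u w → DReach (↑(SS a Y L R) \ ↑F) u w := by
    intro u w h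
    rw [← reach_dl]
    refine h.mono ?_
    rintro _ ⟨⟨⟨x, y, b⟩, he, rfl⟩, he2⟩
    refine ⟨(x, y, b), ⟨?_, he⟩, rfl⟩
    cases b
    · simp only [hT, SS, dl_f, mem_RE_true, mem_coe, mem_RE_false] at he2 ⊢
      omega
    · simp only [hT, SS, dl_t, mem_RE_true, mem_coe, mem_RE_false] at he2 ⊢
      omega
  have r0 : Reach (H ∩ ↑(DR (0, 0) a)) (0, 0) g := (reach_dl.mpr hDg).mono (conv _)
  have rv : Reach (H ∩ ↑(DR (X, Y) a)) (X, Y) g' := (reach_dl.mpr hDg').mono (conv _)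
  have h1' := h1.mono (conv2 _)
  have h2' := h2.mono (conv2 _)
  have h3' := h3.mono (conv2 _)
  have sP0 : DR (0, 0) a ⊆ T := by
    rintro ⟨x, y, _ | _⟩ h
    · simp only [DR, hT, mem_RE_false] at h ⊢; omega
    · simp only [DR, hT, mem_RE_true] at h ⊢; omega
  have sPv : DR (X, Y) a ⊆ T := by
    rintro ⟨x, y, _ | _⟩ h
    · simp only [DR, hT, mem_RE_false] at h ⊢; omega
    · simp only [DR, hT, mem_RE_true] at h ⊢; omega
  have s1 : LRE (L - 20 * a) (13 * a : ℤ) (4 * a : ℤ) (8 * a : ℤ) ⊆ T := by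
    rintro ⟨x, y, _ | _⟩ h
    · simp only [hT, mem_RE_false, mem_LRE_false] at h ⊢; omega
    · simp only [hT, mem_RE_true, mem_LRE_true] at h ⊢; omega
  have s2 : TBE (L - 20 * a) (L - 16 * a) (4 * a : ℤ) (Y + 8 * a) ⊆ T := by
    rintro ⟨x, y, _ | _⟩ h
    · simp only [hT, mem_RE_false, mem_TBE_false] at h ⊢; omega
    · simp only [hT, mem_RE_true, mem_TBE_true] at h ⊢; omega
  have s3 : LRE (L - 20 * a) (X + 13 * a) (Y + 4 * a) (Y + 8 * a) ⊆ T := by
    rintro ⟨x, y, _ | _⟩ h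
    · simp only [hT, mem_RE_false, mem_LRE_false] at h ⊢; omega
    · simp only [hT, mem_RE_true, mem_LRE_true] at h ⊢; omega
  have e1 : Reach (H ∩ ↑T) (0, 0) (L - 20 * a, y1) := by
    refine meet_gen (p := -(12 * a : ℤ)) (q := 12 * a) (c := 4 * a) (d := 8 * a)
      (by omega) (by omega) (V := DR (0, 0) a) (Hh := _) sP0 s1
      ?_ ?_ ?_ ?_ ?_ r0 (by simp only; omega) (by omega) h1'
      (by simp only; omega) (by simp only; omega)
    · rintro ⟨x, y, _ | _⟩ h
      · simp only [hT, mem_RE_false] at h ⊢; omega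
      · simp only [hT, mem_RE_true] at h ⊢; omega
    · intro x y h; simp only [DR, mem_RE_false] at h; omega
    · intro x y h; simp only [DR, mem_RE_true] at h; omega
    · intro x y h; simp only [mem_LRE_true] at h; omega
    · intro x y h; simp only [mem_LRE_false] at h; omega
  have e2 : Reach (H ∩ ↑T) (x2, (4 * a : ℤ)) (L - 20 * a, y1) := by
    refine meet_gen (p := L - 20 * a) (q := L - 16 * a) (c := 4 * a) (d := 8 * a)
      (by omega) (by omega) (V := _) (Hh := _) s2 s1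
      ?_ ?_ ?_ ?_ ?_ h2' (by simp only; omega) (by simp only; omega) h1'
      (by simp only; omega) (by simp only; omega)
    · rintro ⟨x, y, _ | _⟩ h
      · simp only [hT, mem_RE_false] at h ⊢; omega
      · simp only [hT, mem_RE_true] at h ⊢; omega
    · intro x y h; simp only [mem_TBE_false] at h; omega
    · intro x y h; simp only [mem_TBE_true] at h; omega
    · intro x y h; simp only [mem_LRE_true] at h; omega
    · intro x y h; simp only [mem_LRE_false] at h; omega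
  have e3 : Reach (H ∩ ↑T) (x2, (4 * a : ℤ)) (L - 20 * a, y3) := by
    refine meet_gen (p := L - 20 * a) (q := L - 16 * a) (c := Y + 4 * a) (d := Y + 8 * a)
      (by omega) (by omega) (V := _) (Hh := _) s2 s3
      ?_ ?_ ?_ ?_ ?_ h2' (by simp only; omega) (by simp only; omega) h3'
      (by simp only; omega) (by simp only; omega)
    · rintro ⟨x, y, _ | _⟩ h
      · simp only [hT, mem_RE_false] at h ⊢; omega
      · simp only [hT, mem_RE_true] at h ⊢; omega
    · intro x y h; simp only [mem_TBE_false] at h; omega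
    · intro x y h; simp only [mem_TBE_true] at h; omega
    · intro x y h; simp only [mem_LRE_true] at h; omega
    · intro x y h; simp only [mem_LRE_false] at h; omega
  have e4 : Reach (H ∩ ↑T) (X, Y) (L - 20 * a, y3) := by
    refine meet_gen (p := X - 12 * a) (q := X + 12 * a) (c := Y + 4 * a) (d := Y + 8 * a)
      (by omega) (by omega) (V := DR (X, Y) a) (Hh := _) sPv s3
      ?_ ?_ ?_ ?_ ?_ rv (by simp only; omega) (by omega) h3'
      (by simp only; omega) (by simp only; omega)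
    · rintro ⟨x, y, _ | _⟩ h
      · simp only [hT, mem_RE_false] at h ⊢; omega
      · simp only [hT, mem_RE_true] at h ⊢; omega
    · intro x y h; simp only [DR, mem_RE_false] at h; omega
    · intro x y h; simp only [DR, mem_RE_true] at h; omega
    · intro x y h; simp only [mem_LRE_true] at h; omega
    · intro x y h; simp only [mem_LRE_false] at h; omega
  exact back _ _ (((e1.trans e2.symm).trans e3).trans e4.symm)

end Pool.Agent.K9h80.LP
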