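import Pool.Agent.K9h80.LP.Geo
import Pool.Agent.Y993.LL.Low

/-!
# The price of the corridors
-/

set_option autoImplicit false

namespace Pool.Agent.K9h80.LP

open H974 Finset H342P H984P MeasureTheory Pool.Agent.Y993.LL

/-- constant of the long crossings -/
noncomputable def κ1 : ℝ := (1/2:ℝ) ^ (2 ^ 6 * 768 - 1)

theorem κ1_pos : 0 < κ1 := by unfold κ1; positivity

theorem long_steps {h : ℤ} (hh0 : 1 ≤ h) (j : ℕ) :
    (1/2:ℝ) ^ (2 ^ j * 768 - 1) ≤ hh (1/2) (15 * 2 ^ j * h + h) h := by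
  induction j with
  | zero =>
    have := H12S.WH.main hh0
    refine le_trans (le_of_eq ?_) (this.trans (le_of_eq ?_))
    · norm_num
    · congr 1; ring
  | succ j ih =>
    have hw : h ≤ 15 * 2 ^ j * h + h := by
      have : 0 ≤ 15 * 2 ^ j * h := by positivity
      linarith
    have h1 := H12S.WH.step (by omega) hw ih
    have e1 : 2 * (2 ^ j * 768 - 1) + 1 = 2 ^ (j + 1) * 768 - 1 := by
      have : 1 ≤ 2 ^ j := Nat.one_le_two_pow
      rw [pow_succ]; omega
    have e2 : 15 * 2 ^ j * h + h + (15 * 2 ^ j * h + h) - h = 15 * 2 ^ (j + 1) * h + h := by ring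
    rw [e1, e2] at h1
    exact h1

/-- crossings of long rectangles -/
theorem hh_K {w h k : ℤ} (hk : 1 ≤ k) (hkh : k ≤ h) (hw0 : 0 < w) (hw : w ≤ 900 * k) :
    κ1 ≤ hh (1/2) w h := by
  have h1 := long_steps hk 6
  unfold κ1
  refine h1.trans ?_
  refine (hh_mono (by norm_num) (by norm_num) hw0 (?_) le_rfl).trans
    (hh_mono (by norm_num) (by norm_num) hw0 le_rfl hkh)
  norm_num
  linarith

attribute [irreducible] κ1

variable {a : ℕ} {X Y L R : ℤ}

theorem CO_local {F T : Finset Edg} (hT : EO a X Y R ⊆ T) : CO a X Y R F ↔ CO a X Y R (F ∩ T) := by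
  have h1 := (Finset.union_subset_iff.1 hT).1
  have h2 := (Finset.union_subset_iff.1 (Finset.union_subset_iff.1 hT).2).1
  have h3 := (Finset.union_subset_iff.1 (Finset.union_subset_iff.1 hT).2).2
  unfold CO
  rw [LRc_local h1, TBc_local h2, LRc_local h3]

theorem CD_local {F T : Finset Edg} (hT : ED a X Y L ⊆ T) : CD a X Y L F ↔ CD a X Y L (F ∩ T) := by
  have h1 := (Finset.union_subset_iff.1 hT).1
  have h2 := (Finset.union_subset_iff.1 (Finset.union_subset_iff.1 hT).2).1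
  have h3 := (Finset.union_subset_iff.1 (Finset.union_subset_iff.1 hT).2).2
  unfold CD
  rw [LRc_local h1, TBc_local h2, LRc_local h3]

theorem CO_mono {F G : Finset Edg} (h : F ⊆ G) (hF : CO a X Y R F) : CO a X Y R G :=
  ⟨hF.1.mono h, hF.2.1.mono h, hF.2.2.mono h⟩

theorem CD_mono {F G : Finset Edg} (h : F ⊆ G) (hF : CD a X Y L F) : CD a X Y L G :=
  ⟨hF.1.mono h, hF.2.1.mono h, hF.2.2.mono h⟩

/-- three crossings by Harris' inequality -/
theorem three {S : Finset Edg} {A B C : Finset Edg → Prop} {κ : ℝ} (hκ : 0 < κ)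
    (iA : IncrE S A) (iB : IncrE S B) (iC : IncrE S C)
    (hA : κ ≤ Pr (fun _ => (1/2:ℝ)) S A) (hB : κ ≤ Pr (fun _ => (1/2:ℝ)) S B)
    (hC : κ ≤ Pr (fun _ => (1/2:ℝ)) S C) :
    κ * (κ * κ) ≤ Pr (fun _ => (1/2:ℝ)) S (fun F => A F ∧ (B F ∧ C F)) := by
  have h1 := Pr_harris ok2 iB iC
  have h2 := Pr_harris ok2 (A := A) (B := fun F => B F ∧ C F) iA
    (fun F G h h' hF => ⟨iB F G h h' hF.1, iC F G h h' hF.2⟩)
  have h3 : κ * κ ≤ Pr (fun _ => (1/2:ℝ)) S (fun F => B F ∧ C F) :=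
    (mul_le_mul hB hC hκ.le (hκ.le.trans hB)).trans h1
  exact (mul_le_mul hA h3 (by positivity) (hκ.le.trans hA)).trans h2

theorem pr_CO (h : Pos a X Y L R) (hlen : R - X ≤ 2500 * a) (hR : R ≤ 2500 * a)
    (hYl : Y ≤ 60 * a) {S : Finset Edg} (hS : SS a Y L R ⊆ S) :
    κ1 * (κ1 * κ1) ≤ Pr (fun _ => (1/2:ℝ)) S (CO a X Y R) := by
  obtain ⟨ha, hY, hR0, hXR, hL, hLX⟩ := h
  have ha' : (1 : ℤ) ≤ a := by exact_mod_cast ha
  have s1 : LRE (-(13 * a : ℤ)) (R + 20 * a) (-(8 * a : ℤ)) (-(4 * a : ℤ)) ⊆ S := by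
    refine Finset.Subset.trans ?_ hS
    rintro ⟨x, y, _ | _⟩ h
    · simp only [SS, mem_RE_false, mem_LRE_false] at h ⊢; omega
    · simp only [SS, mem_RE_true, mem_LRE_true] at h ⊢; omega
  have s2 : TBE (R + 16 * a) (R + 20 * a) (-(8 * a : ℤ)) (Y - 4 * a) ⊆ S := by
    refine Finset.Subset.trans ?_ hS
    rintro ⟨x, y, _ | _⟩ h
    · simp only [SS, mem_RE_false, mem_TBE_false] at h ⊢; omega
    · simp only [SS, mem_RE_true, mem_TBE_true] at h ⊢; omega
  have s3 : LRE (X - 13 * a) (R + 20 * a) (Y - 8 * a) (Y - 4 * a) ⊆ S := by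
    refine Finset.Subset.trans ?_ hS
    rintro ⟨x, y, _ | _⟩ h
    · simp only [SS, mem_RE_false, mem_LRE_false] at h ⊢; omega
    · simp only [SS, mem_RE_true, mem_LRE_true] at h ⊢; omega
  refine three κ1_pos (LRc_incr S _ _ _ _) (TBc_incr S _ _ _ _) (LRc_incr S _ _ _ _) ?_ ?_ ?_
  · rw [pr_LRc _ s1]
    exact hh_K (k := 4 * a) (by omega) (by omega) (by omega) (by omega)
  · rw [pr_TBc _ s2]
    exact hh_K (k := 4 * a) (by omega) (by omega) (by omega) (by omega)
  · rw [pr_LRc _ s3]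
    exact hh_K (k := 4 * a) (by omega) (by omega) (by omega) (by omega)

theorem ED_sub (h : Pos a X Y L R) : dE (ED a X Y L) ⊆ ↑(SS a Y L R) := by
  obtain ⟨ha, hY, hR0, hXR, hL, hLX⟩ := h
  have ha' : (1 : ℤ) ≤ a := by exact_mod_cast ha
  rintro ⟨x, y, _ | _⟩ h
  · simp only [dE, ED, SS, Set.mem_ofPred_eq, dl_f, mem_LRE_true, mem_TBE_true, mem_coe,
      mem_RE_false, Finset.mem_union] at h ⊢
    omega
  · simp only [dE, ED, SS, Set.mem_ofPred_eq, dl_t, mem_LRE_false, mem_TBE_false, mem_coe,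
      mem_RE_true, Finset.mem_union] at h ⊢
    omega

theorem pr_CD (h : Pos a X Y L R) (hlen : X - L ≤ 2500 * a) (hL2 : -L ≤ 2500 * a)
    (hYl : Y ≤ 60 * a) {S : Finset Edg} (hS : SS a Y L R ⊆ S) :
    κ1 * (κ1 * κ1) ≤ Pr (fun _ => (1/2:ℝ)) S (fun F => CD a X Y L (dmp (S \ F))) := by
  have hsub : ED a X Y L ⊆ dmp S := by
    intro e he
    rw [mem_dmp]
    apply hS
    have h1 : dl.symm e ∈ dE (ED a X Y L) := by
      show dl (dl.symm e) ∈ ED a X Y L
      rw [Equiv.apply_symm_apply]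
      exact he
    exact_mod_cast ED_sub h h1
  obtain ⟨ha, hY, hR0, hXR, hL, hLX⟩ := h
  have ha' : (1 : ℤ) ≤ a := by exact_mod_cast ha
  have e := H12S.pr_dual (q := 1/2) S (CD a X Y L)
  have e1 : (1:ℝ) - 1/2 = 1/2 := by norm_num
  rw [e1] at e
  unfold H12S.PQ at e
  rw [e]
  have s1 := (Finset.union_subset_iff.1 hsub).1
  have s2 := (Finset.union_subset_iff.1 (Finset.union_subset_iff.1 hsub).2).1
  have s3 := (Finset.union_subset_iff.1 (Finset.union_subset_iff.1 hsub).2).2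
  refine three κ1_pos (LRc_incr _ _ _ _ _) (TBc_incr _ _ _ _ _) (LRc_incr _ _ _ _ _) ?_ ?_ ?_
  · rw [pr_LRc _ s1]
    exact hh_K (k := 4 * a) (by omega) (by omega) (by omega) (by omega)
  · rw [pr_TBc _ s2]
    exact hh_K (k := 4 * a) (by omega) (by omega) (by omega) (by omega)
  · rw [pr_LRc _ s3]
    exact hh_K (k := 4 * a) (by omega) (by omega) (by omega) (by omega)

/-- both vertices have separated arms -/
def RR (a : ℕ) (X Y : ℤ) (F : Finset Edg) : Prop := RA (0, 0) a (↑F) ∧ RA (X, Y) a (↑F)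

theorem c_harris (h : Pos a X Y L R) {S : Finset Edg} (hS : SS a Y L R ⊆ S) :
    Pr (fun _ => (1/2:ℝ)) S (RR a X Y) * (Pr (fun _ => (1/2:ℝ)) S (CO a X Y R) *
      Pr (fun _ => (1/2:ℝ)) S (fun F => CD a X Y L (dmp (S \ F)))) ≤
      Pr (fun _ => (1/2:ℝ)) S
        (fun F => RR a X Y F ∧ (CO a X Y R F ∧ CD a X Y L (dmp (S \ F)))) := by
  classical
  have hED := ED_sub h
  obtain ⟨ha, hY, hR0, hXR, hL, hLX⟩ := h
  have ha' : (1 : ℤ) ≤ a := by exact_mod_cast ha
  set T1 : Finset Edg := EO a X Y R with hT1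
  set T2 : Finset Edg := S.filter (fun e => dl e ∈ ED a X Y L) with hT2
  have h1S : T1 ⊆ S := by
    refine Finset.Subset.trans ?_ hS
    rintro ⟨x, y, _ | _⟩ h
    · simp only [hT1, EO, SS, mem_RE_false, mem_LRE_false, mem_TBE_false, Finset.mem_union] at h ⊢
      omega
    · simp only [hT1, EO, SS, mem_RE_true, mem_LRE_true, mem_TBE_true, Finset.mem_union] at h ⊢
      omega
  have mT2 : ∀ e, e ∈ T2 ↔ dl e ∈ ED a X Y L := by
    intro e
    rw [hT2, Finset.mem_filter]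
    exact ⟨fun h => h.2, fun h => ⟨hS (by exact_mod_cast hED h), h⟩⟩
  have hdisj : Disjoint T1 T2 := by
    rw [Finset.disjoint_left]
    rintro ⟨x, y, _ | _⟩ k1 k2
    · rw [mT2] at k2
      simp only [hT1, EO, ED, dl_f, mem_LRE_false, mem_LRE_true, mem_TBE_false, mem_TBE_true,
        Finset.mem_union] at k1 k2
      omega
    · rw [mT2] at k2
      simp only [hT1, EO, ED, dl_t, mem_LRE_false, mem_LRE_true, mem_TBE_false, mem_TBE_true,
        Finset.mem_union] at k1 k2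
      omega
  -- the arms avoid the corridors of the other colour
  have nP0 : ∀ e ∈ PR (0, 0) a, e ∉ T2 := by
    intro e he h'
    rw [mT2] at h'
    obtain ⟨x, y, _ | _⟩ := e
    · simp only [PR, mem_RE_false, ED, dl_f, mem_LRE_true, mem_TBE_true, Finset.mem_union] at he h'
      omega
    · simp only [PR, mem_RE_true, ED, dl_t, mem_LRE_false, mem_TBE_false, Finset.mem_union] at he h'
      omega
  have nPv : ∀ e ∈ PR (X, Y) a, e ∉ T2 := by
    intro e he h'
    rw [mT2] at h'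
    obtain ⟨x, y, _ | _⟩ := e
    · simp only [PR, mem_RE_false, ED, dl_f, mem_LRE_true, mem_TBE_true, Finset.mem_union] at he h'
      omega
    · simp only [PR, mem_RE_true, ED, dl_t, mem_LRE_false, mem_TBE_false, Finset.mem_union] at he h'
      omega
  have nD0 : ∀ e, dl e ∈ DR (0, 0) a → e ∉ T1 := by
    intro e he h'
    obtain ⟨x, y, _ | _⟩ := e
    · simp only [DR, dl_f, mem_RE_true, hT1, EO, mem_LRE_false, mem_TBE_false,
        Finset.mem_union] at he h'
      omega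
    · simp only [DR, dl_t, mem_RE_false, hT1, EO, mem_LRE_true, mem_TBE_true,
        Finset.mem_union] at he h'
      omega
  have nDv : ∀ e, dl e ∈ DR (X, Y) a → e ∉ T1 := by
    intro e he h'
    obtain ⟨x, y, _ | _⟩ := e
    · simp only [DR, dl_f, mem_RE_true, hT1, EO, mem_LRE_false, mem_TBE_false,
        Finset.mem_union] at he h'
      omega
    · simp only [DR, dl_t, mem_RE_false, hT1, EO, mem_LRE_true, mem_TBE_true,
        Finset.mem_union] at he h'
      omega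
  refine harris_signed (p := fun _ : Edg => (1/2:ℝ)) ok2 (S := S) (T₁ := T1) (T₂ := T2)
    h1S (Finset.filter_subset _ _) hdisj (N := RR a X Y) (f := CO a X Y R)
    (g := fun F => CD a X Y L (dmp (S \ F)))
    (fun F _ => CO_local (Finset.Subset.refl _))
    (fun F G hFG h => CO_mono hFG h) ?_ ?_ ?_
  · intro F _
    rw [CD_local (F := dmp (S \ F)) (Finset.Subset.refl _),
      CD_local (F := dmp (S \ (F ∩ T2))) (Finset.Subset.refl _)]
    have : dmp (S \ F) ∩ ED a X Y L = dmp (S \ (F ∩ T2)) ∩ ED a X Y L := by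
      ext e
      rw [Finset.mem_inter, Finset.mem_inter, mem_dmp, mem_dmp, Finset.mem_sdiff,
        Finset.mem_sdiff, Finset.mem_inter, mT2, Equiv.apply_symm_apply]
      tauto
    rw [this]
  · intro F G hFG h
    refine CD_mono ?_ h
    intro e he
    rw [mem_dmp, Finset.mem_sdiff] at he ⊢
    exact ⟨he.1, fun h => he.2 (hFG h)⟩
  · rintro F G hFS hGS hout k1 k2 ⟨hN0, hNv⟩
    have g1 : ∀ e, e ∉ T2 → e ∈ F → e ∈ G := by
      intro e hn2 heF
      by_cases hn1 : e ∈ T1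
      · exact (Finset.mem_inter.1 (k1 (Finset.mem_inter.2 ⟨heF, hn1⟩))).1
      · have : e ∈ F \ (T1 ∪ T2) := by
          rw [Finset.mem_sdiff, Finset.mem_union]
          exact ⟨heF, fun h => h.elim hn1 hn2⟩
        rw [hout, Finset.mem_sdiff] at this
        exact this.1
    have g2 : ∀ e, e ∉ T1 → e ∈ G → e ∈ F := by
      intro e hn1 heG
      by_cases hn2 : e ∈ T2
      · exact (Finset.mem_inter.1 (k2 (Finset.mem_inter.2 ⟨heG, hn2⟩))).1
      · have : e ∈ G \ (T1 ∪ T2) := by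
          rw [Finset.mem_sdiff, Finset.mem_union]
          exact ⟨heG, fun h => h.elim hn1 hn2⟩
        rw [← hout, Finset.mem_sdiff] at this
        exact this.1
    exact ⟨Tr760.RA_mono (fun e he heF => g1 e (nP0 e he) heF)
        (fun e he heG => g2 e (nD0 e he) heG) hN0,
      Tr760.RA_mono (fun e he heF => g1 e (nPv e he) heF)
        (fun e he heG => g2 e (nDv e he) heG) hNv⟩

end Pool.Agent.K9h80.LP
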