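import Pool.Agent.K9h80.LP.Point

/-!
# Interfaces which visit two boxes

If an open path and a dual path join two boxes then one interface visits both boxes.
-/

set_option autoImplicit false

namespace Pool.Agent.K9h80.LP

open H974 Finset H342P H984P MeasureTheory Pool.Agent.Y993.LL

/-- Some interface visits the box of radius `r` around `x` and the box of radius `s` around `y`. -/
def Lk (x y : Vtx) (r s : ℕ) (F : Set Edg) : Prop :=
  ∃ σ τ : St, sd x σ.1 ≤ r ∧ sd y τ.1 ≤ s ∧ τ ∈ loop F σ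

/-- the face `f` touches the box of radius `r` around `x` -/
def FT (x : Vtx) (r : ℕ) (f : Vtx) : Prop := ∃ σ : St, sd x σ.1 ≤ r ∧ face σ = f

theorem sd_le {u v : Vtx} {n : ℤ} : sd u v ≤ n ↔
    (u.1 - n ≤ v.1 ∧ v.1 ≤ u.1 + n) ∧ (u.2 - n ≤ v.2 ∧ v.2 ≤ u.2 + n) := by
  unfold sd
  rw [max_le_iff, abs_le, abs_le]
  omega

theorem sd_tri' (u v w : Vtx) : sd u w ≤ sd u v + sd v w := by
  have h1 := (sd_le (u := u) (v := v)).1 le_rfl
  have h2 := (sd_le (u := v) (v := w)).1 le_rfl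
  rw [sd_le]
  omega

/-- functions which are locally constant on a box -/
theorem box_const {g : Vtx → ZMod 2} {x : Vtx} {r : ℕ}
    (h1 : ∀ u : Vtx, sd x u ≤ r → sd x (u.1 + 1, u.2) ≤ r → g u = g (u.1 + 1, u.2))
    (h2 : ∀ u : Vtx, sd x u ≤ r → sd x (u.1, u.2 + 1) ≤ r → g u = g (u.1, u.2 + 1))
    {u : Vtx} (hu : sd x u ≤ r) : g u = g x := by
  have hx : ∀ (n : ℕ) (u : Vtx), sd x u ≤ r → (u.1 - x.1).natAbs = n → g u = g (x.1, u.2) := by
    intro n
    induction n with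
    | zero =>
      intro u hu hn
      have : u.1 = x.1 := by omega
      rw [← this]
    | succ n ih =>
      intro u hu hn
      rcases le_total u.1 x.1 with h | h
      · have h3 : sd x (u.1 + 1, u.2) ≤ r := by rw [sd_le] at hu ⊢; simp only; omega
        rw [h1 u hu h3]
        exact ih (u.1 + 1, u.2) h3 (by simp only; omega)
      · have h3 : sd x (u.1 - 1, u.2) ≤ r := by rw [sd_le] at hu ⊢; simp only; omega
        have h4 := h1 (u.1 - 1, u.2) h3 (by simp only [sub_add_cancel]; exact hu)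
        simp only [sub_add_cancel] at h4
        rw [← show g (u.1, u.2) = g u from rfl, ← h4]
        exact ih (u.1 - 1, u.2) h3 (by simp only; omega)
  have hy : ∀ (n : ℕ) (u : Vtx), sd x u ≤ r → (u.2 - x.2).natAbs = n → g u = g (u.1, x.2) := by
    intro n
    induction n with
    | zero =>
      intro u hu hn
      have : u.2 = x.2 := by omega
      rw [← this]
    | succ n ih =>
      intro u hu hn
      rcases le_total u.2 x.2 with h | h
      · have h3 : sd x (u.1, u.2 + 1) ≤ r := by rw [sd_le] at hu ⊢; simp only; omega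
        rw [h2 u hu h3]
        exact ih (u.1, u.2 + 1) h3 (by simp only; omega)
      · have h3 : sd x (u.1, u.2 - 1) ≤ r := by rw [sd_le] at hu ⊢; simp only; omega
        have h4 := h2 (u.1, u.2 - 1) h3 (by simp only [sub_add_cancel]; exact hu)
        simp only [sub_add_cancel] at h4
        rw [← show g (u.1, u.2) = g u from rfl, ← h4]
        exact ih (u.1, u.2 - 1) h3 (by simp only; omega)
  rw [hx _ u hu rfl]
  have h3 : sd x (x.1, u.2) ≤ r := by rw [sd_le] at hu ⊢; simp only; omega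
  exact hy _ _ h3 rfl

/-- the vertex potential is constant on a box if the sum of the potentials is -/
theorem pot_box {hv hf : Vtx → ZMod 2} {x : Vtx} {r : ℕ} {k : ZMod 2}
    (h : ∀ σ : St, sd x σ.1 ≤ r → hv σ.1 + hf (face σ) = k) {u : Vtx} (hu : sd x u ≤ r) :
    hv u = hv x := by
  refine box_const (g := hv) (x := x) (r := r) ?_ ?_ hu
  · intro u h1 h2
    have e1 := h (u, Q4.ne) h1
    have e2 := h ((u.1 + 1, u.2), Q4.nw) h2
    have e3 : face ((u.1 + 1, u.2), Q4.nw) = face (u, Q4.ne) := by simp [face]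
    rw [e3] at e2
    simp only at e1 e2
    rw [← e2] at e1
    exact add_right_cancel e1
  · intro u h1 h2
    have e1 := h (u, Q4.ne) h1
    have e2 := h ((u.1, u.2 + 1), Q4.se) h2
    have e3 : face ((u.1, u.2 + 1), Q4.se) = face (u, Q4.ne) := by simp [face]
    rw [e3] at e2
    simp only at e1 e2
    rw [← e2] at e1
    exact add_right_cancel e1

/-- An open path and a dual path between two boxes: one interface visits both boxes. -/
theorem link_of {F : Set Edg} (hcl : ∀ σ, Closed F σ) {x y : Vtx} {r s : ℕ} {p p' q q' : Vtx}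
    (hp : sd x p ≤ r) (hp' : sd y p' ≤ s) (hq : FT x r q) (hq' : FT y s q')
    (h1 : Reach F p p') (h2 : DReach Fᶜ q q') : Lk x y r s F := by
  by_contra hno
  set A : Set St := {σ | ∃ τ ∈ loop F σ, sd y τ.1 ≤ s} with hA
  have hinv : ∀ σ, σ ∈ A ↔ nxt F σ ∈ A := by
    intro σ
    have h3 : nxt F σ ∈ loop F σ := (loop_inv (hcl σ) _).1 (self_mem_loop _ _)
    have h4 := (loop_eq (hcl σ) h3).1
    show (∃ τ ∈ loop F σ, sd y τ.1 ≤ s) ↔ ∃ τ ∈ loop F (nxt F σ), sd y τ.1 ≤ s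
    rw [h4]
  obtain ⟨hv, hf, hsum, hvF, hfF⟩ := pot_of_inv F A hinv
  have hx : ∀ σ : St, sd x σ.1 ≤ r → hv σ.1 + hf (face σ) = 0 := by
    intro σ hσ
    rw [hsum σ]
    apply b2_not_of
    rintro ⟨τ, hτ, hd⟩
    exact hno ⟨σ, τ, hσ, hd, hτ⟩
  have hy : ∀ σ : St, sd y σ.1 ≤ s → hv σ.1 + hf (face σ) = 1 := by
    intro σ hσ
    rw [hsum σ]
    exact b2_of ⟨σ, self_mem_loop _ _, hσ⟩
  obtain ⟨σ, hσ, rfl⟩ := hq
  obtain ⟨τ, hτ, rfl⟩ := hq'
  have e1 := pot_box hx hp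
  have e2 := pot_box hx hσ
  have e3 := pot_box hy hp'
  have e4 := pot_box hy hτ
  have e5 := hx σ hσ
  have e6 := hy τ hτ
  have e7 := const_reach hvF h1
  have e8 := const_dreach (F := Fᶜ) (h := hf) (fun e he => hfF e he) h2
  have e9 : hv x = hv y := by rw [← e1, e7, e3]
  rw [e2, e8] at e5
  rw [e4, ← e9, e5] at e6
  exact absurd e6 (by decide)

/-! ### last exits -/

theorem exR {G B : Set Edg} {T : Vtx → Prop} (hB : ∀ e ∈ B, T (src e) ∧ T (tgt e)) {x w : Vtx}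
    (hx : T x) (h : Reach G x w) : ∃ p, T p ∧ Reach (G \ B) p w := by
  induction h with
  | refl => exact ⟨x, hx, Reach.refl _ _⟩
  | @tail u w _ hs ih =>
    obtain ⟨e, he, hc⟩ := hs
    by_cases heB : e ∈ B
    · obtain ⟨h1, h2⟩ := hB e heB
      rcases hc with ⟨-, h3⟩ | ⟨h3, -⟩
      · exact ⟨w, h3 ▸ h2, Reach.refl _ _⟩
      · exact ⟨w, h3 ▸ h1, Reach.refl _ _⟩
    · obtain ⟨p, hp, hr⟩ := ih
      exact ⟨p, hp, hr.tail ⟨e, ⟨he, heB⟩, hc⟩⟩

theorem exD {G B : Set Edg} {T : Vtx → Prop} (hB : ∀ e ∈ B, T (dsrc e) ∧ T (dtgt e)) {x w : Vtx}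
    (hx : T x) (h : DReach G x w) : ∃ p, T p ∧ DReach (G \ B) p w := by
  induction h with
  | refl => exact ⟨x, hx, DReach.refl _ _⟩
  | @tail u w _ hs ih =>
    obtain ⟨e, he, hc⟩ := hs
    by_cases heB : e ∈ B
    · obtain ⟨h1, h2⟩ := hB e heB
      rcases hc with ⟨-, h3⟩ | ⟨h3, -⟩
      · exact ⟨w, h3 ▸ h2, DReach.refl _ _⟩
      · exact ⟨w, h3 ▸ h1, DReach.refl _ _⟩
    · obtain ⟨p, hp, hr⟩ := ih
      exact ⟨p, hp, hr.trans (DAdj.reach ⟨e, ⟨he, heB⟩, hc⟩)⟩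

theorem bx_ends {x : Vtx} {r : ℕ} {e : Edg} (he : e ∈ bx x r) :
    sd x (src e) ≤ r ∧ sd x (tgt e) ≤ r := by
  obtain ⟨a, b, t⟩ := e
  unfold bx at he
  rw [sd_le, sd_le]
  cases t
  · rw [mem_RE_false] at he; simp only [src_mk, tgt_false]; omega
  · rw [mem_RE_true] at he; simp only [src_mk, tgt_true]; omega

theorem bx_faces {x : Vtx} {r : ℕ} {e : Edg} (he : e ∈ bx x r) :
    FT x r (dsrc e) ∧ FT x r (dtgt e) := by
  have h := (bx_ends he).1
  obtain ⟨a, b, t⟩ := e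
  cases t
  · refine ⟨⟨((a, b), Q4.nw), h, ?_⟩, ⟨((a, b), Q4.ne), h, ?_⟩⟩
    · simp [face]
    · simp [face]
  · refine ⟨⟨((a, b), Q4.se), h, ?_⟩, ⟨((a, b), Q4.ne), h, ?_⟩⟩
    · simp [face]
    · simp [face]

/-- The two boxes are joined by an open path and by a dual path outside of the boxes. -/
def Out (S : Finset Edg) (x y : Vtx) (r s : ℕ) (F : Finset Edg) : Prop :=
  (∃ p p', sd x p ≤ r ∧ sd y p' ≤ s ∧ Reach (↑(F \ (bx x r ∪ bx y s)) : Set Edg) p p') ∧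
    ∃ q q', FT x r q ∧ FT y s q' ∧
      DReach (↑((S \ F) \ (bx x r ∪ bx y s)) : Set Edg) q q'

theorem out_of_CF {S : Finset Edg} {x y : Vtx} {r s : ℕ} {F : Finset Edg} (h : CF S x y F) :
    Out S x y r s F := by
  obtain ⟨h1, h2⟩ := h
  have hxx : sd x x ≤ r := by rw [sd_le]; omega
  have hyy : sd y y ≤ s := by rw [sd_le]; omega
  constructor
  · obtain ⟨p, hp, h3⟩ := exR (B := (↑(bx x r) : Set Edg)) (T := fun v => sd x v ≤ r)
      (fun e he => bx_ends (by exact_mod_cast he)) hxx h1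
    obtain ⟨p', hp', h4⟩ := exR (B := (↑(bx y s) : Set Edg)) (T := fun v => sd y v ≤ s)
      (fun e he => bx_ends (by exact_mod_cast he)) hyy h3.symm
    refine ⟨p, p', hp, hp', h4.symm.mono ?_⟩
    rintro e ⟨⟨he1, he2⟩, he3⟩
    rw [Finset.coe_sdiff, Finset.coe_union]
    exact ⟨he1, fun h => h.elim he2 he3⟩
  · obtain ⟨p, hp, h3⟩ := exD (B := (↑(bx x r) : Set Edg)) (T := FT x r)
      (fun e he => bx_faces (by exact_mod_cast he)) ⟨(x, Q4.ne), hxx, by simp [face]⟩ h2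
    obtain ⟨p', hp', h4⟩ := exD (B := (↑(bx y s) : Set Edg)) (T := FT y s)
      (fun e he => bx_faces (by exact_mod_cast he)) ⟨(y, Q4.ne), hyy, by simp [face]⟩ h3.symm
    refine ⟨p, p', hp, hp', h4.symm.mono ?_⟩
    rintro e ⟨⟨he1, he2⟩, he3⟩
    rw [Finset.coe_sdiff, Finset.coe_union]
    exact ⟨he1, fun h => h.elim he2 he3⟩

theorem out_local {S : Finset Edg} {x y : Vtx} {r s : ℕ} {F : Finset Edg} (hF : F ⊆ S) :
    Out S x y r s F ↔ Out S x y r s (F ∩ (S \ (bx x r ∪ bx y s))) := by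
  have e1 : F \ (bx x r ∪ bx y s) = (F ∩ (S \ (bx x r ∪ bx y s))) \ (bx x r ∪ bx y s) := by
    ext e
    simp only [Finset.mem_sdiff, Finset.mem_inter]
    constructor
    · rintro ⟨h1, h2⟩; exact ⟨⟨h1, hF h1, h2⟩, h2⟩
    · rintro ⟨⟨h1, -⟩, h2⟩; exact ⟨h1, h2⟩
  have e2 : (S \ F) \ (bx x r ∪ bx y s) =
      (S \ (F ∩ (S \ (bx x r ∪ bx y s)))) \ (bx x r ∪ bx y s) := by
    ext e
    simp only [Finset.mem_sdiff, Finset.mem_inter]
    constructor
    · rintro ⟨⟨h1, h2⟩, h3⟩; exact ⟨⟨h1, fun h => h2 h.1⟩, h3⟩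
    · rintro ⟨⟨h1, h2⟩, h3⟩; exact ⟨⟨h1, fun h => h2 ⟨h, h1, h3⟩⟩, h3⟩
  unfold Out
  rw [← e1, ← e2]

theorem out_link {C : ℝ} (hU : TwoUp C (1/4)) (S : Finset Edg) (x y : Vtx) (r s : ℕ) :
    Pr (fun _ => (1/2:ℝ)) S (Out S x y r s) ≤ μ.real {ω | Lk x y r s (opn ω)} := by
  apply le_law
  filter_upwards [closed_all_ae (by norm_num) hU] with ω hω
  rintro ⟨⟨p, p', hp, hp', h1⟩, q, q', hq, hq', h2⟩
  refine link_of hω hp hp' hq hq' (h1.mono ?_) (h2.mono ?_)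
  · intro e he
    rw [Finset.mem_coe, Finset.mem_sdiff, mem_FF] at he
    exact he.1.2
  · intro e he h3
    rw [Finset.mem_coe, Finset.mem_sdiff, Finset.mem_sdiff, mem_FF] at he
    exact he.1.2 ⟨he.1.1, h3⟩

/-! ### the lower bound -/

/-- two arms in the box, trivial for radius zero -/
def TwoA (x : Vtx) (r : ℕ) (F : Set Edg) : Prop := 0 < r → Two x x r F

theorem TwoA_inter {x : Vtx} {r : ℕ} (F : Finset Edg) : TwoA x r (↑F) ↔ TwoA x r (↑(F ∩ bx x r)) := by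
  unfold TwoA
  refine forall_congr' fun h => ?_
  exact two_inter (by omega) F (Finset.Subset.refl _)

theorem pr_TwoA {C : ℝ} (hU : TwoUp C (1/4)) (x : Vtx) (r : ℕ) {S : Finset Edg}
    (hS : bx x r ⊆ S) : Pr (fun _ => (1/2:ℝ)) S (fun F => TwoA x r (↑F)) ≤
      (2 * |C| + 1) * ((r:ℝ) + 1) ^ (-(1/4:ℝ)) := by
  have hr1 : (0:ℝ) < (r:ℝ) + 1 := by positivity
  have hX : (0:ℝ) < ((r:ℝ) + 1) ^ (-(1/4:ℝ)) := Real.rpow_pos_of_pos hr1 _
  have hC0 : 0 ≤ |C| := abs_nonneg _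
  rcases Nat.eq_zero_or_pos r with h | h
  · subst h
    refine (Pr_le_one ok2 _ _).trans ?_
    norm_num
  · have e : Pr (fun _ => (1/2:ℝ)) S (fun F => TwoA x r (↑F)) ≤
        Pr (fun _ => (1/2:ℝ)) S (fun F => Two x x r (↑F)) :=
      Pr_mono ok2 fun F _ h1 => h1 h
    have h1 : (0:ℤ) < r := by omega
    refine e.trans ?_
    rw [pr_two h1 hS]
    have h2 := hU r x x h1 (by have := inc_face (x, Q4.ne); simpa [face] using this)
    refine h2.trans ?_
    have hrR : (1:ℝ) ≤ r := by exact_mod_cast h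
    have h3 : ((r:ℤ):ℝ) ^ (-(1/4:ℝ)) ≤ 2 * ((r:ℝ) + 1) ^ (-(1/4:ℝ)) := by
      have h4 : ((r:ℤ):ℝ) ^ (-(1/4:ℝ)) ≤ (((r:ℝ) + 1) / 2) ^ (-(1/4:ℝ)) := by
        apply rpow_neg_le (by positivity) _ (by norm_num)
        push_cast
        linarith
      have h5 : (((r:ℝ) + 1) / 2) ^ (-(1/4:ℝ)) = ((r:ℝ) + 1) ^ (-(1/4:ℝ)) * (2:ℝ) ^ (1/4:ℝ) := by
        rw [Real.div_rpow hr1.le (by norm_num), Real.rpow_neg (by norm_num : (0:ℝ) ≤ 2)]
        rw [div_inv_eq_mul]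
      have h6 : (2:ℝ) ^ (1/4:ℝ) ≤ 2 := by
        have := Real.rpow_le_rpow_of_exponent_le (by norm_num : (1:ℝ) ≤ 2)
          (by norm_num : (1/4:ℝ) ≤ 1)
        rwa [Real.rpow_one] at this
      rw [h5] at h4
      nlinarith
    have h4 : (0:ℝ) ≤ ((r:ℤ):ℝ) ^ (-(1/4:ℝ)) := Real.rpow_nonneg (by positivity) _
    calc C * ((r:ℤ):ℝ) ^ (-(1/4:ℝ)) ≤ |C| * ((r:ℤ):ℝ) ^ (-(1/4:ℝ)) :=
          mul_le_mul_of_nonneg_right (le_abs_self C) h4
      _ ≤ |C| * (2 * ((r:ℝ) + 1) ^ (-(1/4:ℝ))) := mul_le_mul_of_nonneg_left h3 hC0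
      _ ≤ _ := by nlinarith

theorem CF_enlarge {S S' : Finset Edg} (h : S ⊆ S') (x y : Vtx) :
    Pr (fun _ => (1/2:ℝ)) S (CF S x y) ≤ Pr (fun _ => (1/2:ℝ)) S' (CF S' x y) := by
  have e1 : Pr (fun _ => (1/2:ℝ)) S' (fun F => CF S x y (F ∩ S)) =
      Pr (fun _ => (1/2:ℝ)) S (fun F => CF S x y (F ∩ S)) := by
    apply Pr_local h
    intro F _
    rw [Finset.inter_assoc, Finset.inter_self]
  have e2 : Pr (fun _ => (1/2:ℝ)) S (fun F => CF S x y (F ∩ S)) =
      Pr (fun _ => (1/2:ℝ)) S (CF S x y) := by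
    apply Pr_congr
    intro F hF
    rw [Finset.inter_eq_left.mpr hF]
  rw [← e2, ← e1]
  apply Pr_mono ok2
  rintro F - ⟨h1, h2⟩
  refine ⟨h1.mono (by exact_mod_cast Finset.inter_subset_left), h2.mono ?_⟩
  intro e he
  rw [Finset.mem_coe, Finset.mem_sdiff, Finset.mem_inter] at he
  rw [Finset.mem_coe, Finset.mem_sdiff]
  exact ⟨h he.1, fun h3 => he.2 ⟨h3, he.1⟩⟩

/-- quasi-multiplicativity: the easy half -/
theorem split_link {C : ℝ} (hU : TwoUp C (1/4)) {x y : Vtx} {r s : ℕ}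
    (hd : (r:ℤ) + s + 1 ≤ sd x y) (S : Finset Edg) :
    Pr (fun _ => (1/2:ℝ)) S (CF S x y) ≤
      (2 * |C| + 1) ^ 2 * (((r:ℝ) + 1) ^ (-(1/4:ℝ)) * ((s:ℝ) + 1) ^ (-(1/4:ℝ))) *
        μ.real {ω | Lk x y r s (opn ω)} := by
  classical
  obtain ⟨S', hS'⟩ : ∃ S' : Finset Edg, S' = S ∪ (bx x r ∪ bx y s) := ⟨_, rfl⟩
  have s1 : S ⊆ S' := by rw [hS']; exact Finset.subset_union_left
  have s2 : bx x r ⊆ S' := by
    rw [hS']; exact Finset.subset_union_left.trans Finset.subset_union_right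
  have s3 : bx y s ⊆ S' := by
    rw [hS']; exact Finset.subset_union_right.trans Finset.subset_union_right
  refine (CF_enlarge s1 x y).trans ?_
  have hdis : Disjoint (bx x r) (bx y s) := by
    rw [Finset.disjoint_left]
    intro e h1 h2
    have h3 := (bx_ends h1).1
    have h4 := (bx_ends h2).1
    have h5 := sd_tri' x (src e) y
    rw [sd_comm (src e) y] at h5
    omega
  have hfx : 0 < r → Far x ((r:ℤ) + 1) y := by
    intro _; rw [far_iff]; omega
  have hfy : 0 < s → Far y ((s:ℤ) + 1) x := by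
    intro _; rw [far_iff, sd_comm]; omega
  have hm : Pr (fun _ => (1/2:ℝ)) S' (CF S' x y) ≤ Pr (fun _ => (1/2:ℝ)) S'
      (fun F => TwoA x r (↑F) ∧ (TwoA y s (↑F) ∧ Out S' x y r s F)) := by
    apply Pr_mono ok2
    intro F hF h
    have hcon : Conn (↑F : Set Edg) (x, Q4.ne) (y, Q4.ne) := by
      refine ⟨h.1, ?_⟩
      have h2 := h.2
      have : DReach (↑F : Set Edg)ᶜ x y := h2.mono (by
        intro e he
        rw [Finset.mem_coe, Finset.mem_sdiff] at he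
        exact fun h3 => he.2 (by exact_mod_cast h3))
      simpa [face] using this
    refine ⟨fun hr => ?_, fun hs => ?_, out_of_CF h⟩
    · have := two_of_conn (k := (r:ℤ)) (by omega) hcon (hfx hr)
      simpa [face] using this
    · have := two_of_conn (k := (s:ℤ)) (by omega) hcon.symm (hfy hs)
      simpa [face] using this
  have hdis2 : Disjoint (bx y s) (S' \ (bx x r ∪ bx y s)) := by
    rw [Finset.disjoint_left]
    intro e h1 h2
    exact (Finset.mem_sdiff.1 h2).2 (Finset.mem_union_right _ h1)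
  have hdis3 : Disjoint (bx x r) (bx y s ∪ (S' \ (bx x r ∪ bx y s))) := by
    rw [Finset.disjoint_union_right]
    refine ⟨hdis, ?_⟩
    rw [Finset.disjoint_left]
    intro e h1 h2
    exact (Finset.mem_sdiff.1 h2).2 (Finset.mem_union_left _ h1)
  have hind : Pr (fun _ => (1/2:ℝ)) S'
      (fun F => TwoA x r (↑F) ∧ (TwoA y s (↑F) ∧ Out S' x y r s F)) =
      Pr (fun _ => (1/2:ℝ)) S' (fun F => TwoA x r (↑F)) *
      (Pr (fun _ => (1/2:ℝ)) S' (fun F => TwoA y s (↑F)) *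
        Pr (fun _ => (1/2:ℝ)) S' (Out S' x y r s)) := by
    rw [Pr_indep s2 (Finset.union_subset s3 Finset.sdiff_subset) hdis3
      (A := fun F => TwoA x r (↑F)) (B := fun F => TwoA y s (↑F) ∧ Out S' x y r s F)
      (fun F _ => TwoA_inter F) ?_,
      Pr_indep s3 Finset.sdiff_subset hdis2
      (A := fun F => TwoA y s (↑F)) (B := Out S' x y r s)
      (fun F _ => TwoA_inter F) (fun F hF => out_local hF)]
    intro F hF
    set T : Finset Edg := bx y s ∪ (S' \ (bx x r ∪ bx y s)) with hT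
    have e1 : (F ∩ T) ∩ bx y s = F ∩ bx y s := by
      rw [Finset.inter_assoc, Finset.inter_eq_right.mpr Finset.subset_union_left]
    have e2 : (F ∩ T) ∩ (S' \ (bx x r ∪ bx y s)) = F ∩ (S' \ (bx x r ∪ bx y s)) := by
      rw [Finset.inter_assoc, Finset.inter_eq_right.mpr Finset.subset_union_right]
    rw [TwoA_inter F, TwoA_inter (F ∩ T), out_local hF,
      out_local (Finset.inter_subset_left.trans hF : F ∩ T ⊆ S'), e1, e2]
  rw [hind] at hm
  refine hm.trans ?_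
  have p1 := pr_TwoA hU x r s2
  have p2 := pr_TwoA hU y s s3
  have p3 := out_link hU S' x y r s
  have n1 : 0 ≤ Pr (fun _ => (1/2:ℝ)) S' (fun F => TwoA y s (↑F)) := Pr_nonneg ok2 _ _
  have n2 : 0 ≤ Pr (fun _ => (1/2:ℝ)) S' (Out S' x y r s) := Pr_nonneg ok2 _ _
  have n3 : (0:ℝ) ≤ ((r:ℝ) + 1) ^ (-(1/4:ℝ)) := Real.rpow_nonneg (by positivity) _
  have n4 : (0:ℝ) ≤ ((s:ℝ) + 1) ^ (-(1/4:ℝ)) := Real.rpow_nonneg (by positivity) _
  calc _ ≤ ((2 * |C| + 1) * ((r:ℝ) + 1) ^ (-(1/4:ℝ))) *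
        (((2 * |C| + 1) * ((s:ℝ) + 1) ^ (-(1/4:ℝ))) * μ.real {ω | Lk x y r s (opn ω)}) := by
        apply mul_le_mul p1 _ (mul_nonneg n1 n2) (by positivity)
        exact mul_le_mul p2 p3 n2 (by positivity)
    _ = _ := by ring

end Pool.Agent.K9h80.LP
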