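import Pool.Agent.K9h80.LP.Har
import Pool.Agent.K9h80.LP.Flip
import Pool.Agent.Y993.LL.Final

/-!
# Lower bound of the two-point function
-/

set_option autoImplicit false

namespace Pool.Agent.K9h80.LP

open H974 Finset H342P H984P MeasureTheory Pool.Agent.Y993.LL

/-- Two vertices are joined by open edges and their north-east faces by closed edges of `S`. -/
def CF (S : Finset Edg) (u v : Vtx) (F : Finset Edg) : Prop :=
  Reach (↑F : Set Edg) u v ∧ DReach (↑(S \ F) : Set Edg) u v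

theorem CF_symm {S : Finset Edg} {u v : Vtx} {F : Finset Edg} (h : CF S u v F) : CF S v u F :=
  ⟨h.1.symm, h.2.symm⟩

/-- probability that two vertices have separated arms -/
theorem pr_RR {c : ℝ} (hc : 0 < c) (hL : LowA c (1/4)) {a : ℕ} (ha : 1 ≤ a) {X Y : ℤ}
    {S : Finset Edg} (h0 : BA (0, 0) a ⊆ S) (hv : BA (X, Y) a ⊆ S)
    (hd : Disjoint (BA (0, 0) a) (BA (X, Y) a)) :
    c * c * (a:ℝ) ^ (-(1/2:ℝ)) ≤ Pr (fun _ => (1/2:ℝ)) S (RR a X Y) := by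
  have haR : (1:ℝ) ≤ a := by exact_mod_cast ha
  have e0 : Pr (fun _ => (1/2:ℝ)) S (RR a X Y) =
      Pr (fun _ => (1/2:ℝ)) S (fun F => RA (0, 0) a (↑F)) *
      Pr (fun _ => (1/2:ℝ)) S (fun F => RA (X, Y) a (↑F)) := by
    unfold RR
    rw [Pr_indep h0 hv hd (A := fun F => RA (0, 0) a (↑F)) (B := fun F => RA (X, Y) a (↑F))]
    · intro F _
      rw [Finset.coe_inter]
      exact ra_inter _ _ (subset_refl _)
    · intro F _
      rw [Finset.coe_inter]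
      exact ra_inter _ _ (subset_refl _)
  have one : ∀ v : Vtx, BA v a ⊆ S →
      c * (a:ℝ) ^ (-(1/4:ℝ)) ≤ Pr (fun _ => (1/2:ℝ)) S (fun F => RA v a (↑F)) := by
    intro v hv
    have hvc : v ∈ ctr v a := by rw [mem_ctr']; omega
    have h1 := pr_ra_ge hL ha hvc
    rw [pr_ra_local (BA_sub_NB ha hvc)] at h1
    rw [pr_ra_local hv]
    exact h1
  have hX : (0:ℝ) < (a:ℝ) ^ (-(1/4:ℝ)) := Real.rpow_pos_of_pos (by linarith) _
  rw [e0]
  have e1 : (a:ℝ) ^ (-(1/2:ℝ)) = (a:ℝ) ^ (-(1/4:ℝ)) * (a:ℝ) ^ (-(1/4:ℝ)) := by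
    rw [← Real.rpow_add (by linarith)]
    norm_num
  rw [e1]
  calc c * c * ((a:ℝ) ^ (-(1/4:ℝ)) * (a:ℝ) ^ (-(1/4:ℝ))) =
      (c * (a:ℝ) ^ (-(1/4:ℝ))) * (c * (a:ℝ) ^ (-(1/4:ℝ))) := by ring
    _ ≤ _ := mul_le_mul (one _ h0) (one _ hv) (by positivity) ((by positivity : (0:ℝ) ≤
        c * (a:ℝ) ^ (-(1/4:ℝ))).trans (one _ h0))

/-- the second vertex is above the first one -/
theorem low_vert {c : ℝ} (hc : 0 < c) (hL : LowA c (1/4)) {a : ℕ} (ha : 1 ≤ a) {X Y : ℤ}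
    (h1 : 30 * (a:ℤ) ≤ Y) (h2 : Y ≤ 60 * a) (h3 : |X| ≤ 2400 * a) :
    ∃ S : Finset Edg, κ1 ^ 6 * (c * c) * (a:ℝ) ^ (-(1/2:ℝ)) ≤
      Pr (fun _ => (1/2:ℝ)) S (CF S (0, 0) (X, Y)) := by
  have ha' : (1 : ℤ) ≤ a := by exact_mod_cast ha
  have haR : (1:ℝ) ≤ a := by exact_mod_cast ha
  rw [abs_le] at h3
  set L : ℤ := min 0 X with hLd
  set R : ℤ := max 0 X with hRd
  have hpos : Pos a X Y L R := ⟨ha, h1, le_max_left _ _, le_max_right _ _, min_le_left _ _,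
    min_le_right _ _⟩
  have hR2 : R ≤ 2500 * a ∧ R - X ≤ 2500 * a := by
    rcases max_choice 0 X with h | h <;> rw [hRd, h] <;> omega
  have hL2 : -L ≤ 2500 * a ∧ X - L ≤ 2500 * a := by
    rcases min_choice 0 X with h | h <;> rw [hLd, h] <;> omega
  refine ⟨SS a Y L R, ?_⟩
  have p1 := pr_CO hpos hR2.2 hR2.1 h2 (Finset.Subset.refl _)
  have p2 := pr_CD hpos hL2.2 hL2.1 h2 (Finset.Subset.refl _)
  have p3 := c_harris hpos (Finset.Subset.refl _)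
  have hL0 : L ≤ 0 := min_le_left _ _
  have hLX : L ≤ X := min_le_right _ _
  have hR0 : 0 ≤ R := le_max_left _ _
  have hRX : X ≤ R := le_max_right _ _
  have p4 : c * c * (a:ℝ) ^ (-(1/2:ℝ)) ≤ Pr (fun _ => (1/2:ℝ)) (SS a Y L R) (RR a X Y) := by
    apply pr_RR hc hL ha
    · rintro ⟨x, y, _ | _⟩ h
      · simp only [BA, SS, mem_RE_false] at h ⊢; omega
      · simp only [BA, SS, mem_RE_true] at h ⊢; omega
    · rintro ⟨x, y, _ | _⟩ h
      · simp only [BA, SS, mem_RE_false] at h ⊢; omega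
      · simp only [BA, SS, mem_RE_true] at h ⊢; omega
    · rw [Finset.disjoint_left]
      rintro ⟨x, y, _ | _⟩ h h'
      · simp only [BA, mem_RE_false] at h h'; omega
      · simp only [BA, mem_RE_true] at h h'; omega
  have hκ := κ1_pos
  have hX : (0:ℝ) < (a:ℝ) ^ (-(1/2:ℝ)) := Real.rpow_pos_of_pos (by linarith) _
  calc κ1 ^ 6 * (c * c) * (a:ℝ) ^ (-(1/2:ℝ)) =
      (c * c * (a:ℝ) ^ (-(1/2:ℝ))) * ((κ1 * (κ1 * κ1)) * (κ1 * (κ1 * κ1))) := by ring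
    _ ≤ Pr (fun _ => (1/2:ℝ)) (SS a Y L R) (RR a X Y) *
      (Pr (fun _ => (1/2:ℝ)) (SS a Y L R) (CO a X Y R) *
      Pr (fun _ => (1/2:ℝ)) (SS a Y L R) (fun F => CD a X Y L (dmp (SS a Y L R \ F)))) := by
        apply mul_le_mul p4 _ (by positivity) ((by positivity : (0:ℝ) ≤
          c * c * (a:ℝ) ^ (-(1/2:ℝ))).trans p4)
        exact mul_le_mul p1 p2 (by positivity) ((by positivity : (0:ℝ) ≤
          κ1 * (κ1 * κ1)).trans p1)
    _ ≤ _ := p3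
    _ ≤ _ := by
        apply Pr_mono ok2
        rintro F - ⟨⟨q1, q2⟩, q3, q4⟩
        refine ⟨(conn_open hpos q1 q2 q3).mono Set.inter_subset_left, ?_⟩
        rw [Finset.coe_sdiff]
        exact conn_dual hpos q1 q2 q4

/-- the second vertex is on the right of the first one, nearly at the same height -/
theorem low_hor {c : ℝ} (hc : 0 < c) (hL : LowA c (1/4)) {a : ℕ} (ha : 1 ≤ a) {X Y : ℤ}
    (h1 : 27 * (a:ℤ) < X) (h2 : X ≤ 40 * a) (h3 : |Y| ≤ a) :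
    ∃ S : Finset Edg, κ0 * κ0 * (c * c) * (a:ℝ) ^ (-(1/2:ℝ)) ≤
      Pr (fun _ => (1/2:ℝ)) S (CF S (0, 0) (X, Y)) := by
  have ha' : (1 : ℤ) ≤ a := by exact_mod_cast ha
  rw [abs_le] at h3
  refine ⟨SB (-(12 * a : ℤ)) (X + 12 * a) 0 a, ?_⟩
  set S : Finset Edg := SB (-(12 * a : ℤ)) (X + 12 * a) 0 a with hS
  have hV0 : VV (-(12 * a : ℤ)) (X + 12 * a) 0 a (0, 0) := by unfold VV; simp only; omega
  have hVv : VV (-(12 * a : ℤ)) (X + 12 * a) 0 a (X, Y) := by unfold VV; simp only; omega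
  have p3 := strip_harris (X1 := -(12 * a : ℤ)) (X2 := X + 12 * a) (y0 := 0) ha (by omega)
    (by omega) (Finset.Subset.refl _ : SB (-(12 * a : ℤ)) (X + 12 * a) 0 a ⊆ S) (N := RR a X Y) (by
      rintro F G - - h ⟨q1, q2⟩
      exact ⟨h _ hV0 q1, h _ hVv q2⟩)
  have p4 : c * c * (a:ℝ) ^ (-(1/2:ℝ)) ≤ Pr (fun _ => (1/2:ℝ)) S (RR a X Y) := by
    apply pr_RR hc hL ha
    · rintro ⟨x, y, _ | _⟩ h
      · simp only [BA, hS, SB, mem_RE_false] at h ⊢; omega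
      · simp only [BA, hS, SB, mem_RE_true] at h ⊢; omega
    · rintro ⟨x, y, _ | _⟩ h
      · simp only [BA, hS, SB, mem_RE_false] at h ⊢; omega
      · simp only [BA, hS, SB, mem_RE_true] at h ⊢; omega
    · rw [Finset.disjoint_left]
      rintro ⟨x, y, _ | _⟩ h h'
      · simp only [BA, mem_RE_false] at h h'; omega
      · simp only [BA, mem_RE_true] at h h'; omega
  have hκ := κ0_pos
  calc κ0 * κ0 * (c * c) * (a:ℝ) ^ (-(1/2:ℝ)) = κ0 * κ0 * (c * c * (a:ℝ) ^ (-(1/2:ℝ))) := by ring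
    _ ≤ κ0 * κ0 * Pr (fun _ => (1/2:ℝ)) S (RR a X Y) :=
        mul_le_mul_of_nonneg_left p4 (by positivity)
    _ ≤ _ := p3
    _ ≤ _ := by
        apply Pr_mono ok2
        rintro F - ⟨⟨q1, q2⟩, q3, q4⟩
        obtain ⟨p, q, hpq⟩ := strip_conn ha q3 q4
        obtain ⟨o1, o2⟩ := hpq _ hV0 q1
        obtain ⟨v1, v2⟩ := hpq _ hVv q2
        refine ⟨(o1.trans v1.symm).mono Set.inter_subset_left, ?_⟩
        rw [Finset.coe_sdiff]
        exact o2.trans v2.symm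

/-- the lower bound between the origin and a vertex, up to a symmetry -/
theorem low_orig {c : ℝ} (hc : 0 < c) (hL : LowA c (1/4)) : ∃ k : ℝ, 0 < k ∧
    ∀ (X Y : ℤ) (d : ℕ), 1200 ≤ d → (|X| ≤ d ∧ |Y| ≤ d) →
      ((d:ℤ) ≤ 40 * Y ∨ (X = d ∧ 40 * |Y| < d)) →
      ∃ S : Finset Edg, k * (d:ℝ) ^ (-(1/2:ℝ)) ≤
        Pr (fun _ => (1/2:ℝ)) S (CF S (0, 0) (X, Y)) := by
  have hκ := κ1_pos
  have hκ0 := κ0_pos
  refine ⟨min (κ1 ^ 6 * (c * c)) (κ0 * κ0 * (c * c)), by positivity, ?_⟩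
  intro X Y d hd hXY hcase
  have hdR : (1200:ℝ) ≤ d := by exact_mod_cast hd
  have mono : ∀ a : ℕ, 1 ≤ a → a ≤ d → (d:ℝ) ^ (-(1/2:ℝ)) ≤ (a:ℝ) ^ (-(1/2:ℝ)) := by
    intro a h1 h2
    apply rpow_neg_le (by exact_mod_cast h1) (by exact_mod_cast h2) (by norm_num)
  have hp : (0:ℝ) ≤ (d:ℝ) ^ (-(1/2:ℝ)) := Real.rpow_nonneg (by linarith) _
  rcases hcase with h | ⟨h, h'⟩
  · obtain ⟨a, ha⟩ : ∃ a : ℕ, a = (Y / 30).toNat := ⟨_, rfl⟩
    have h1 : (a:ℤ) = Y / 30 := by omega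
    have h2 := hXY.1
    have h3 := hXY.2
    have h4 := le_abs_self Y
    obtain ⟨S, hS⟩ := low_vert hc hL (a := a) (X := X) (Y := Y) (by omega) (by omega) (by omega)
      (by omega)
    refine ⟨S, le_trans ?_ hS⟩
    exact mul_le_mul (min_le_left _ _) (mono a (by omega) (by omega)) hp (by positivity)
  · obtain ⟨a, ha⟩ : ∃ a : ℕ, a = (d + 39) / 40 := ⟨_, rfl⟩
    obtain ⟨S, hS⟩ := low_hor hc hL (a := a) (X := X) (Y := Y) (by omega) (by omega) (by omega)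
      (by omega)
    refine ⟨S, le_trans ?_ hS⟩
    exact mul_le_mul (min_le_right _ _) (mono a (by omega) (by omega)) hp (by positivity)

theorem CF_trl {S F : Finset Edg} {u v : Vtx} (s t : ℤ) (h : CF S u v F) :
    CF ((trl s t).mp S) (u.1 + s, u.2 + t) (v.1 + s, v.2 + t) ((trl s t).mp F) := by
  refine ⟨?_, ?_⟩
  · rw [LSym.coe_mp]
    exact (trl s t).reach h.1
  · rw [← LSym.mp_sdiff, LSym.coe_mp]
    exact dreach_trl h.2

theorem pr_CF_trl (S : Finset Edg) (u v : Vtx) (s t : ℤ) :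
    Pr (fun _ => (1/2:ℝ)) S (CF S u v) ≤
      Pr (fun _ => (1/2:ℝ)) ((trl s t).mp S)
        (CF ((trl s t).mp S) (u.1 + s, u.2 + t) (v.1 + s, v.2 + t)) := by
  rw [LSym.pr]
  exact Pr_mono ok2 fun F _ h => CF_trl s t h

/-- The lower bound at large distances for states of the same type. -/
theorem low_far {c : ℝ} (hc : 0 < c) (hL : LowA c (1/4)) : ∃ k : ℝ, 0 < k ∧
    ∀ (u v : Vtx), 1200 ≤ sd u v → ∃ S : Finset Edg, k * (sd u v : ℝ) ^ (-(1/2:ℝ)) ≤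
        Pr (fun _ => (1/2:ℝ)) S (CF S u v) := by
  obtain ⟨k, hk, h⟩ := low_orig hc hL
  refine ⟨k, hk, ?_⟩
  have key : ∀ (u v : Vtx) (d : ℕ), 1200 ≤ d → (|v.1 - u.1| ≤ d ∧ |v.2 - u.2| ≤ d) →
      ((d:ℤ) ≤ 40 * (v.2 - u.2) ∨ (v.1 - u.1 = d ∧ 40 * |v.2 - u.2| < d)) →
      ∃ S : Finset Edg, k * (d:ℝ) ^ (-(1/2:ℝ)) ≤ Pr (fun _ => (1/2:ℝ)) S (CF S u v) := by
    intro u v d h1 h2 h3
    obtain ⟨S, hS⟩ := h _ _ d h1 h2 h3
    refine ⟨(trl u.1 u.2).mp S, hS.trans ((pr_CF_trl S (0, 0) (v.1 - u.1, v.2 - u.2) u.1 u.2).trans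
      (le_of_eq ?_))⟩
    simp only [zero_add, sub_add_cancel]
  intro u v huv
  obtain ⟨d, hd⟩ : ∃ d : ℕ, (d:ℤ) = sd u v := ⟨(sd u v).toNat, by omega⟩
  have hdR : (sd u v : ℝ) = (d:ℝ) := by rw [← hd]; push_cast; rfl
  rw [hdR]
  have e1 : |u.1 - v.1| ≤ d := by rw [hd]; exact le_max_left _ _
  have e2 : |u.2 - v.2| ≤ d := by rw [hd]; exact le_max_right _ _
  have e3 : |u.1 - v.1| = d ∨ |u.2 - v.2| = d := by
    rw [hd]; unfold sd
    rcases max_choice |u.1 - v.1| |u.2 - v.2| with h | h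
    · left; exact h.symm
    · right; exact h.symm
  have e1' : |v.1 - u.1| ≤ d := by rw [abs_sub_comm]; exact e1
  have e2' : |v.2 - u.2| ≤ d := by rw [abs_sub_comm]; exact e2
  have hsym : (∃ S : Finset Edg, k * (d:ℝ) ^ (-(1/2:ℝ)) ≤
      Pr (fun _ => (1/2:ℝ)) S (CF S v u)) → ∃ S : Finset Edg, k * (d:ℝ) ^ (-(1/2:ℝ)) ≤
      Pr (fun _ => (1/2:ℝ)) S (CF S u v) := by
    rintro ⟨S, hS⟩
    exact ⟨S, hS.trans (Pr_mono ok2 fun F _ h => CF_symm h)⟩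
  rcases le_or_gt (d:ℤ) (40 * |u.2 - v.2|) with h1 | h1
  · rcases abs_cases (u.2 - v.2) with ⟨h2, h3⟩ | ⟨h2, h3⟩
    · apply hsym
      exact key v u d (by omega) ⟨e1, e2⟩ (Or.inl (by omega))
    · exact key u v d (by omega) ⟨e1', e2'⟩ (Or.inl (by omega))
  · have h2 : |u.1 - v.1| = d := by
      rcases e3 with h | h
      · exact h
      · omega
    rcases abs_cases (u.1 - v.1) with ⟨h3, h4⟩ | ⟨h3, h4⟩
    · apply hsym
      exact key v u d (by omega) ⟨e1, e2⟩ (Or.inr ⟨by omega, h1⟩)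
    · refine key u v d (by omega) ⟨e1', e2'⟩ (Or.inr ⟨by omega, ?_⟩)
      rw [abs_sub_comm]
      exact h1

end Pool.Agent.K9h80.LP
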