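import Pool.Agent.K9h80.LP.Low2

/-!
# The two-point function of the loops
-/

set_option autoImplicit false

namespace Pool.Agent.K9h80.LP

open H974 Finset H342P H984P MeasureTheory Pool.Agent.Y993.LL

theorem sd_comm (u v : Vtx) : sd u v = sd v u := by
  unfold sd
  rw [abs_sub_comm u.1, abs_sub_comm u.2]

theorem sd_nonneg (u v : Vtx) : 0 ≤ sd u v := (abs_nonneg _).trans (le_max_left _ _)

/-- from a finite box to the lattice -/
theorem fin_inf {C : ℝ} (hU : TwoUp C (1/4)) (S : Finset Edg) (u v : Vtx) :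
    Pr (fun _ => (1/2:ℝ)) S (CF S u v) ≤
      μ.real {ω | ((v, Q4.ne) : St) ∈ loop (opn ω) (u, Q4.ne)} := by
  apply le_law
  filter_upwards [closed_ae (by norm_num) hU (u, Q4.ne)] with ω hω
  rintro ⟨h1, h2⟩
  exact (mem_loop hω _).2 (conn_of_fin (σ := (u, Q4.ne)) (τ := (v, Q4.ne)) h1 h2)

theorem loop_symm {C : ℝ} (hU : TwoUp C (1/4)) (σ τ : St) :
    μ.real {ω | τ ∈ loop (opn ω) σ} = μ.real {ω | σ ∈ loop (opn ω) τ} := by
  have key : ∀ σ τ : St, μ.real {ω | τ ∈ loop (opn ω) σ} ≤ μ.real {ω | σ ∈ loop (opn ω) τ} := by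
    intro σ τ
    unfold Measure.real
    apply ENNReal.toReal_mono (measure_ne_top _ _)
    apply measure_mono_ae
    filter_upwards [closed_ae (by norm_num) hU σ] with ω hω
    intro h
    show σ ∈ loop (opn ω) τ
    rw [(loop_eq hω h).1]
    exact self_mem_loop _ _
  exact le_antisymm (key σ τ) (key τ σ)

theorem self_prob (σ : St) : μ.real {ω | σ ∈ loop (opn ω) σ} = 1 := by
  have : {ω : sqLattice.edgeSet → Bool | σ ∈ loop (opn ω) σ} = Set.univ := by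
    ext ω; simp [self_mem_loop]
  rw [this]; simp

theorem rt_iter (v : Vtx) (q q' : Q4) : ∃ n ≤ 3, rt^[n] (v, q) = (v, q') := by
  cases q <;> cases q' <;>
    first
      | exact ⟨0, by omega, rfl⟩
      | exact ⟨1, by omega, rfl⟩
      | exact ⟨2, by omega, rfl⟩
      | exact ⟨3, by omega, rfl⟩

theorem corner_le {C : ℝ} (hU : TwoUp C (1/4)) (v : Vtx) (q q' : Q4) (τ : St) :
    μ.real {ω | τ ∈ loop (opn ω) (v, q)} ≤ 8 * μ.real {ω | τ ∈ loop (opn ω) (v, q')} := by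
  obtain ⟨n, hn, h⟩ := rt_iter v q q'
  have key : ∀ (n : ℕ) (σ : St), μ.real {ω | τ ∈ loop (opn ω) σ} ≤
      2 ^ n * μ.real {ω | τ ∈ loop (opn ω) (rt^[n] σ)} := by
    intro n
    induction n with
    | zero => intro σ; simp
    | succ n ih =>
      intro σ
      have h1 := move1 (by norm_num) hU (σ := σ) (σ' := rt σ) (Or.inl rfl) τ
      have h2 := ih (rt σ)
      rw [← Function.iterate_succ_apply] at h2
      rw [pow_succ]
      have h3 : (0:ℝ) ≤ 2 ^ n := by positivity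
      nlinarith
  have h1 := key n (v, q)
  rw [h] at h1
  refine h1.trans (mul_le_mul_of_nonneg_right ?_ measureReal_nonneg)
  calc (2:ℝ) ^ n ≤ 2 ^ 3 := pow_le_pow_right₀ (by norm_num) hn
    _ = 8 := by norm_num

theorem adj_le {C : ℝ} (hU : TwoUp C (1/4)) (v : Vtx) (q : Q4) (τ : St) :
    μ.real {ω | τ ∈ loop (opn ω) (v, Q4.ne)} ≤
      128 * μ.real {ω | τ ∈ loop (opn ω) ((mv (v, q)).1, Q4.ne)} := by
  have h1 := corner_le hU v Q4.ne q τ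
  have h2 := move1 (by norm_num) hU (σ := (v, q)) (σ' := mv (v, q)) (Or.inr rfl) τ
  have h3 := corner_le hU (mv (v, q)).1 (mv (v, q)).2 Q4.ne τ
  rw [Prod.mk.eta] at h3
  linarith

theorem shift_le {C : ℝ} (hU : TwoUp C (1/4)) (τ : St) (q : Q4) (s t : ℤ)
    (hq : ∀ v : Vtx, (mv (v, q)).1 = (v.1 + s, v.2 + t)) (n : ℕ) (v : Vtx) :
    μ.real {ω | τ ∈ loop (opn ω) (v, Q4.ne)} ≤
      128 ^ n * μ.real {ω | τ ∈ loop (opn ω) ((v.1 + n * s, v.2 + n * t), Q4.ne)} := by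
  induction n with
  | zero => simp
  | succ n ih =>
    have h1 := adj_le hU (v.1 + n * s, v.2 + n * t) q τ
    rw [hq] at h1
    have e : ((v.1 + n * s + s, v.2 + n * t + t) : Vtx) =
        (v.1 + ((n + 1 : ℕ) : ℤ) * s, v.2 + ((n + 1 : ℕ) : ℤ) * t) := by
      apply Prod.ext <;> (simp only; push_cast; ring)
    simp only at h1
    rw [e] at h1
    rw [pow_succ]
    have h3 : (0:ℝ) ≤ 128 ^ n := by positivity
    nlinarith

theorem near_le {C : ℝ} (hU : TwoUp C (1/4)) (τ : St) (u v : Vtx) :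
    μ.real {ω | τ ∈ loop (opn ω) (u, Q4.ne)} ≤
      128 ^ ((u.1 - v.1).natAbs + (u.2 - v.2).natAbs) *
        μ.real {ω | τ ∈ loop (opn ω) (v, Q4.ne)} := by
  have hx : ∀ (u : Vtx) (x : ℤ), μ.real {ω | τ ∈ loop (opn ω) (u, Q4.ne)} ≤
      128 ^ (u.1 - x).natAbs * μ.real {ω | τ ∈ loop (opn ω) ((x, u.2), Q4.ne)} := by
    intro u x
    rcases le_total u.1 x with h | h
    · have h1 := shift_le hU τ Q4.ne 1 0 (by rintro ⟨x, y⟩; simp [mv]) (u.1 - x).natAbs u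
      have e : ((u.1 + ((u.1 - x).natAbs : ℤ) * 1, u.2 + ((u.1 - x).natAbs : ℤ) * 0) : Vtx) =
          (x, u.2) := by
        apply Prod.ext <;> (simp only; omega)
      rw [e] at h1
      exact h1
    · have h1 := shift_le hU τ Q4.sw (-1) 0 (by rintro ⟨x, y⟩; simp [mv, sub_eq_add_neg])
        (u.1 - x).natAbs u
      have e : ((u.1 + ((u.1 - x).natAbs : ℤ) * (-1), u.2 + ((u.1 - x).natAbs : ℤ) * 0) : Vtx) =
          (x, u.2) := by
        apply Prod.ext <;> (simp only; omega)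
      rw [e] at h1
      exact h1
  have hy : ∀ (u : Vtx) (y : ℤ), μ.real {ω | τ ∈ loop (opn ω) (u, Q4.ne)} ≤
      128 ^ (u.2 - y).natAbs * μ.real {ω | τ ∈ loop (opn ω) ((u.1, y), Q4.ne)} := by
    intro u y
    rcases le_total u.2 y with h | h
    · have h1 := shift_le hU τ Q4.nw 0 1 (by rintro ⟨x, y⟩; simp [mv]) (u.2 - y).natAbs u
      have e : ((u.1 + ((u.2 - y).natAbs : ℤ) * 0, u.2 + ((u.2 - y).natAbs : ℤ) * 1) : Vtx) =
          (u.1, y) := by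
        apply Prod.ext <;> (simp only; omega)
      rw [e] at h1
      exact h1
    · have h1 := shift_le hU τ Q4.se 0 (-1) (by rintro ⟨x, y⟩; simp [mv, sub_eq_add_neg])
        (u.2 - y).natAbs u
      have e : ((u.1 + ((u.2 - y).natAbs : ℤ) * 0, u.2 + ((u.2 - y).natAbs : ℤ) * (-1)) : Vtx) =
          (u.1, y) := by
        apply Prod.ext <;> (simp only; omega)
      rw [e] at h1
      exact h1
  have h1 := hx u v.1
  have h2 := hy (v.1, u.2) v.2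
  simp only [Prod.mk.eta] at h2
  rw [pow_add]
  have h3 : (0:ℝ) ≤ 128 ^ (u.1 - v.1).natAbs := by positivity
  calc _ ≤ _ := h1
    _ ≤ 128 ^ (u.1 - v.1).natAbs * (128 ^ (u.2 - v.2).natAbs *
        μ.real {ω | τ ∈ loop (opn ω) (v, Q4.ne)}) := mul_le_mul_of_nonneg_left h2 h3
    _ = _ := by ring

/-- states at a bounded distance -/
theorem low_near {C : ℝ} (hU : TwoUp C (1/4)) (n : ℕ) : ∃ k : ℝ, 0 < k ∧
    ∀ σ τ : St, sd σ.1 τ.1 ≤ n → k ≤ μ.real {ω | τ ∈ loop (opn ω) σ} := by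
  refine ⟨(8 * 128 ^ (2 * n) * 8 : ℝ)⁻¹, by positivity, ?_⟩
  rintro ⟨u, q⟩ ⟨v, q'⟩ h
  have h1 := corner_le hU v q' Q4.ne (v, q')
  have h2 := near_le hU (v, q') v u
  have h3 := corner_le hU u Q4.ne q (v, q')
  rw [self_prob] at h1
  have h4 : (128:ℝ) ^ ((v.1 - u.1).natAbs + (v.2 - u.2).natAbs) ≤ 128 ^ (2 * n) := by
    apply pow_le_pow_right₀ (by norm_num)
    have e1 : |u.1 - v.1| ≤ n := (le_max_left _ _).trans h
    have e2 : |u.2 - v.2| ≤ n := (le_max_right _ _).trans h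
    rw [abs_le] at e1 e2
    omega
  have h5 : (0:ℝ) ≤ μ.real {ω | ((v, q') : St) ∈ loop (opn ω) (u, Q4.ne)} := measureReal_nonneg
  have h6 : (0:ℝ) < 128 ^ (2 * n) := by positivity
  rw [inv_le_iff_one_le_mul₀ (by positivity)]
  calc (1:ℝ) ≤ 8 * μ.real {ω | ((v, q') : St) ∈ loop (opn ω) (v, Q4.ne)} := h1
    _ ≤ 8 * (128 ^ ((v.1 - u.1).natAbs + (v.2 - u.2).natAbs) *
        μ.real {ω | ((v, q') : St) ∈ loop (opn ω) (u, Q4.ne)}) :=
        mul_le_mul_of_nonneg_left h2 (by norm_num)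
    _ ≤ 8 * (128 ^ (2 * n) * μ.real {ω | ((v, q') : St) ∈ loop (opn ω) (u, Q4.ne)}) := by
        gcongr
    _ ≤ 8 * (128 ^ (2 * n) * (8 * μ.real {ω | ((v, q') : St) ∈ loop (opn ω) (u, q)})) := by
        gcongr
    _ = _ := by ring

/-- **Lower bound of the two-point function.** -/
theorem pt_low {c C : ℝ} (hc : 0 < c) (hL : LowA c (1/4)) (hU : TwoUp C (1/4)) :
    ∃ k : ℝ, 0 < k ∧ ∀ σ τ : St, k * ((sd σ.1 τ.1 : ℝ) + 1) ^ (-(1/2:ℝ)) ≤
      μ.real {ω | τ ∈ loop (opn ω) σ} := by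
  obtain ⟨k1, hk1, h1⟩ := low_far hc hL
  obtain ⟨k2, hk2, h2⟩ := low_near hU 1200
  refine ⟨min (k1 / 64) k2, by positivity, ?_⟩
  rintro ⟨u, q⟩ ⟨v, q'⟩
  simp only
  have hd0 : (0:ℝ) ≤ (sd u v : ℝ) := by exact_mod_cast sd_nonneg u v
  have hp : (0:ℝ) ≤ ((sd u v : ℝ) + 1) ^ (-(1/2:ℝ)) := Real.rpow_nonneg (by linarith) _
  rcases le_total (sd u v) 1200 with hd | hd
  · have h3 := h2 (u, q) (v, q') (by exact_mod_cast hd)
    refine le_trans ?_ h3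
    have h4 : ((sd u v : ℝ) + 1) ^ (-(1/2:ℝ)) ≤ 1 :=
      Real.rpow_le_one_of_one_le_of_nonpos (by linarith) (by norm_num)
    calc min (k1 / 64) k2 * ((sd u v : ℝ) + 1) ^ (-(1/2:ℝ)) ≤ k2 * 1 :=
          mul_le_mul (min_le_right _ _) h4 hp hk2.le
      _ = k2 := mul_one _
  · obtain ⟨S, hS⟩ := h1 u v hd
    have h3 := hS.trans (fin_inf hU S u v)
    have h4 := corner_le hU u Q4.ne q (v, Q4.ne)
    have h5 := corner_le hU v Q4.ne q' (u, q)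
    rw [loop_symm hU (v, Q4.ne) (u, q), loop_symm hU (v, q') (u, q)] at h5
    have hd' : (1200:ℝ) ≤ sd u v := by exact_mod_cast hd
    have h6 : ((sd u v : ℝ) + 1) ^ (-(1/2:ℝ)) ≤ (sd u v : ℝ) ^ (-(1/2:ℝ)) :=
      rpow_neg_le (by linarith) (by linarith) (by norm_num)
    have h7 : min (k1 / 64) k2 * ((sd u v : ℝ) + 1) ^ (-(1/2:ℝ)) ≤
        k1 / 64 * (sd u v : ℝ) ^ (-(1/2:ℝ)) :=
      mul_le_mul (min_le_left _ _) h6 hp (by positivity)
    linarith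

/-- **Upper bound of the two-point function.** -/
theorem pt_up {C : ℝ} (hC : 0 < C) (hU : TwoUp C (1/4)) :
    ∃ K : ℝ, 0 < K ∧ ∀ σ τ : St, μ.real {ω | τ ∈ loop (opn ω) σ} ≤
      K * ((sd σ.1 τ.1 : ℝ) + 1) ^ (-(1/2:ℝ)) := by
  refine ⟨2 + C ^ 2 * 5, by positivity, fun σ τ => ?_⟩
  obtain ⟨d, hd⟩ : ∃ d : ℤ, d = sd σ.1 τ.1 := ⟨_, rfl⟩
  rw [← hd]
  have hd0 : 0 ≤ d := hd ▸ sd_nonneg _ _
  have hdR : (0:ℝ) ≤ d := by exact_mod_cast hd0
  have hX : (0:ℝ) < ((d:ℝ) + 1) ^ (-(1/2:ℝ)) := Real.rpow_pos_of_pos (by linarith) _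
  by_cases h3 : d ≤ 2
  · refine measureReal_le_one.trans ?_
    have h4 : (1:ℝ) / 2 ≤ ((d:ℝ) + 1) ^ (-(1/2:ℝ)) := by
      have h5 : ((d:ℝ) + 1) ≤ 4 := by
        have : (d:ℝ) ≤ 2 := by exact_mod_cast h3
        linarith
      have h6 : (4:ℝ) ^ (-(1/2:ℝ)) ≤ ((d:ℝ) + 1) ^ (-(1/2:ℝ)) :=
        rpow_neg_le (by linarith) h5 (by norm_num)
      have h7 : (4:ℝ) ^ (-(1/2:ℝ)) = 1 / 2 := by
        rw [show (4:ℝ) = 2 ^ (2:ℝ) by norm_num, ← Real.rpow_mul (by norm_num)]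
        norm_num
      linarith
    have h8 : (0:ℝ) ≤ C ^ 2 * 5 := by positivity
    nlinarith
  · push Not at h3
    obtain ⟨k, hk⟩ : ∃ k : ℤ, k = (d - 1) / 2 := ⟨_, rfl⟩
    have hk0 : 0 < k := by omega
    have hkd : 2 * k < d := by omega
    have hk5 : d + 1 ≤ 5 * k := by omega
    have hdd : 2 * k < |σ.1.1 - τ.1.1| ∨ 2 * k < |σ.1.2 - τ.1.2| := by
      rcases max_choice |σ.1.1 - τ.1.1| |σ.1.2 - τ.1.2| with h | h
      · left; rw [← h]; unfold sd at hd; rw [← hd]; exact hkd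
      · right; rw [← h]; unfold sd at hd; rw [← hd]; exact hkd
    have hfar : Far σ.1 (k + 1) τ.1 := by
      rw [far_iff, ← hd]; omega
    have h1 : μ.real {ω | τ ∈ loop (opn ω) σ} ≤ Pr (fun _ => (1/2:ℝ)) (bx σ.1 k ∪ bx τ.1 k)
        (fun F => Two σ.1 (face σ) k (↑F) ∧ Two τ.1 (face τ) k (↑F)) := by
      apply law_le
      intro ω hω
      have hcon := conn_of_mem hω
      exact ⟨(two_FF hk0 Finset.subset_union_left ω).1 (two_of_conn hk0 hcon hfar),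
        (two_FF hk0 Finset.subset_union_right ω).1 (two_of_conn hk0 hcon.symm (far_symm hfar))⟩
    refine h1.trans ((pr_pair hU hk0 Finset.subset_union_left Finset.subset_union_right
      hdd).trans ?_)
    have hkR : (0:ℝ) < (k:ℝ) := by exact_mod_cast hk0
    have e1 : C * (k:ℝ) ^ (-(1/4:ℝ)) * (C * (k:ℝ) ^ (-(1/4:ℝ))) = C ^ 2 * (k:ℝ) ^ (-(1/2:ℝ)) := by
      rw [show (-(1/2:ℝ)) = -(1/4) + -(1/4) by norm_num, Real.rpow_add hkR]
      ring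
    have h4 : ((d:ℝ) + 1) / 5 ≤ k := by
      have : ((d:ℝ) + 1) ≤ 5 * k := by exact_mod_cast hk5
      linarith
    have h5 : (k:ℝ) ^ (-(1/2:ℝ)) ≤ (((d:ℝ) + 1) / 5) ^ (-(1/2:ℝ)) :=
      rpow_neg_le (by positivity) h4 (by norm_num)
    have h6 : (((d:ℝ) + 1) / 5) ^ (-(1/2:ℝ)) = ((d:ℝ) + 1) ^ (-(1/2:ℝ)) * (5:ℝ) ^ (1/2:ℝ) := by
      rw [Real.div_rpow (by linarith) (by norm_num), Real.rpow_neg (by norm_num : (0:ℝ) ≤ 5)]
      rw [div_inv_eq_mul]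
    have h7 : (5:ℝ) ^ (1/2:ℝ) ≤ 5 := by
      have := Real.rpow_le_rpow_of_exponent_le (by norm_num : (1:ℝ) ≤ 5)
        (by norm_num : (1/2:ℝ) ≤ 1)
      rwa [Real.rpow_one] at this
    rw [h6] at h5
    rw [e1]
    have hC2 : (0:ℝ) < C ^ 2 := by positivity
    calc C ^ 2 * (k:ℝ) ^ (-(1/2:ℝ)) ≤ C ^ 2 * (((d:ℝ) + 1) ^ (-(1/2:ℝ)) * (5:ℝ) ^ (1/2:ℝ)) :=
          mul_le_mul_of_nonneg_left h5 hC2.le
      _ ≤ C ^ 2 * (((d:ℝ) + 1) ^ (-(1/2:ℝ)) * 5) := by gcongr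
      _ ≤ _ := by nlinarith

end Pool.Agent.K9h80.LP
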